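import Pool.Agent.Lib.MP_0430e4_lc.Hier.Defs

/-!
# Duality for the linear program with caps

If the robust form of the lower half holds at length `n` then there is a feasible point of the
linear program whose values off the origin are at most `m / ((1 - κ) 2 ^ n)` and whose Fourier
coefficients are at most `2`.
-/

set_option autoImplicit false

namespace Pool.Agent.Lib.MP_0430e4_lc.Hier

open Finset

section sep

variable {X : Type*} [Fintype X] [DecidableEq X]

/-- Separation: the general form of the duality, for a kernel `χ` which is `1` on the row and on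
the column of `o`. -/
theorem capped_aux (o : X) (P : X → Prop) (χ : X → X → ℝ) (h1 : ∀ y, χ o y = 1) {c m : ℝ}
    (hc : 0 ≤ c)
    (H : ∀ g : X → ℝ, g o = 1 → ∑ y, |g y| ≤ m →
      ∃ s : Finset X, (∀ x ∈ s, x ≠ o ∧ P x) ∧ m ≤ c * ∑ x ∈ s, max (∑ y, g y * χ x y) 0) :
    ∃ b : X → ℝ, b o = 1 ∧ (∀ x, 0 ≤ b x) ∧ (∀ x, x ≠ o → ¬ P x → b x = 0) ∧
      (∀ x, x ≠ o → b x ≤ c) ∧ m ≤ ∑ x, b x * χ x o ∧
      ∀ y, y ≠ o → 0 ≤ ∑ x, b x * χ x y ∧ ∑ x, b x * χ x y ≤ 2 := by
  classical
  by_contra hne
  -- the transform
  let T : (X → ℝ) →ₗ[ℝ] (X → ℝ) := LinearMap.pi fun y => ∑ x, χ x y • LinearMap.proj x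
  have hT : ∀ b y, T b y = ∑ x, b x * χ x y := by
    intro b y
    simp [T, mul_comm]
  let K : Set (X → ℝ) := Set.pi Set.univ fun x =>
    Set.Icc (if x = o then 1 else 0) (if x = o then 1 else if P x then c else 0)
  let D : Set (X → ℝ) := Set.pi Set.univ fun y => if y = o then Set.Ici m else Set.Icc 0 2
  have hKc : IsCompact (T '' K) :=
    (isCompact_univ_pi fun x => isCompact_Icc).image T.continuous_of_finiteDimensional
  have hKx : Convex ℝ (T '' K) := (convex_pi fun x _ => convex_Icc _ _).linear_image T
  have hDc : IsClosed D := by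
    apply isClosed_set_pi
    intro y _
    by_cases hy : y = o
    · simp only [hy, if_true]; exact isClosed_Ici
    · simp only [hy, if_false]; exact isClosed_Icc
  have hDx : Convex ℝ D := by
    apply convex_pi
    intro y _
    by_cases hy : y = o
    · simp only [hy, if_true]; exact convex_Ici _
    · simp only [hy, if_false]; exact convex_Icc _ _
  have hdis : Disjoint (T '' K) D := by
    rw [Set.disjoint_left]
    rintro _ ⟨b, hb, rfl⟩ hD
    apply hne
    have hb' : ∀ x, (if x = o then (1 : ℝ) else 0) ≤ b x ∧
        b x ≤ (if x = o then 1 else if P x then c else 0) := fun x => hb x (Set.mem_univ x)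
    refine ⟨b, ?_, ?_, ?_, ?_, ?_, ?_⟩
    · have := hb' o
      simp only [if_true] at this
      exact le_antisymm this.2 this.1
    · intro x
      refine le_trans ?_ (hb' x).1
      split_ifs <;> norm_num
    · intro x hx hP
      have := hb' x
      simp only [hx, if_false, hP] at this
      exact le_antisymm this.2 this.1
    · intro x hx
      have := (hb' x).2
      simp only [hx, if_false] at this
      refine this.trans ?_
      split_ifs
      · exact le_refl _
      · exact hc
    · have := hD o (Set.mem_univ o)
      simp only [if_true, Set.mem_Ici, hT] at this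
      exact this
    · intro y hy
      have := hD y (Set.mem_univ y)
      simp only [hy, if_false, Set.mem_Icc, hT] at this
      exact this
  obtain ⟨f, u, v, hu, huv, hv⟩ := geometric_hahn_banach_compact_closed hKx hKc hDx hDc hdis
  set g : X → ℝ := fun y => f (Pi.single y 1) with hg
  have hf : ∀ l : X → ℝ, f l = ∑ y, l y * g y := by
    intro l
    conv_lhs => rw [← Finset.univ_sum_single l]
    rw [map_sum]
    refine Finset.sum_congr rfl fun y _ => ?_
    have : (Pi.single y (l y) : X → ℝ) = l y • Pi.single y (1 : ℝ) := by
      rw [← Pi.single_smul]; simp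
    rw [this, map_smul, smul_eq_mul]
  set F : X → ℝ := fun x => ∑ y, g y * χ x y with hF
  have hfT : ∀ b : X → ℝ, f (T b) = ∑ x, b x * F x := by
    intro b
    rw [hf]
    simp only [hT, hF, Finset.sum_mul, Finset.mul_sum]
    rw [Finset.sum_comm]
    refine Finset.sum_congr rfl fun x _ => Finset.sum_congr rfl fun y _ => by ring
  -- the value at the origin is nonnegative
  have hlam : ∀ l : X → ℝ, m ≤ l o → (∀ y, y ≠ o → 0 ≤ l y ∧ l y ≤ 2) → v < f l := by
    intro l h0 hl
    apply hv
    intro y _
    by_cases hy : y = o
    · subst hy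
      simpa using h0
    · simp only [hy, if_false]
      exact hl y hy
  have hg0 : 0 ≤ g o := by
    by_contra hneg
    push Not at hneg
    have key : ∀ t : ℝ, 0 ≤ t → v < (m + t) * g o := by
      intro t ht
      have := hlam (fun y => if y = o then m + t else 0) (by simp [ht]) (by
        intro y hy
        simp [hy])
      rw [hf] at this
      simpa [ite_mul] using this
    have h2 := key (max 0 ((v - m * g o) / g o)) (le_max_left _ _)
    rcases le_total 0 ((v - m * g o) / g o) with h | h
    · rw [max_eq_right h, add_mul, div_mul_cancel₀ _ hneg.ne] at h2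
      linarith
    · have h3 : 0 ≤ v - m * g o := by
        by_contra h4
        push Not at h4
        have := div_pos_of_neg_of_neg h4 hneg
        linarith
      rw [max_eq_left h] at h2
      linarith
  -- the two extreme points
  have hA : v < m * g o - 2 * ∑ y, max (-(g y)) 0 := by
    have h3 := hlam (fun y => if y = o then m else if g y < 0 then 2 else 0) (by simp) (by
      intro y hy
      simp only [hy, if_false]
      split_ifs <;> norm_num)
    rw [hf] at h3
    refine h3.trans_le (le_of_eq ?_)
    have h4 : ∀ y, (if y = o then m else if g y < 0 then 2 else 0) * g y =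
        (if y = o then m * g o else 0) - 2 * max (-(g y)) 0 := by
      intro y
      by_cases hy : y = o
      · subst hy
        simp only [if_true]
        rw [max_eq_right (by linarith)]
        ring
      · simp only [hy, if_false]
        split_ifs with h5
        · rw [max_eq_left (by linarith)]; ring
        · rw [max_eq_right (by linarith)]; ring
    rw [Finset.sum_congr rfl fun y _ => h4 y, Finset.sum_sub_distrib, ← Finset.mul_sum]
    simp
  have hB : ∀ s : Finset X, (∀ x ∈ s, x ≠ o ∧ P x) → F o + c * ∑ x ∈ s, max (F x) 0 < u := by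
    intro s hs
    have h3 := hu (T fun x => if x = o then 1 else if x ∈ s ∧ 0 < F x then c else 0)
      ⟨_, ?_, rfl⟩
    · rw [hfT] at h3
      refine lt_of_eq_of_lt ?_ h3
      have h4 : ∀ x, (if x = o then 1 else if x ∈ s ∧ 0 < F x then c else 0) * F x =
          (if x = o then F o else 0) + (if x ∈ s then c * max (F x) 0 else 0) := by
        intro x
        by_cases hx : x = o
        · subst hx
          have : x ∉ s := fun h => (hs x h).1 rfl
          simp [this]
        · simp only [hx, if_false]
          by_cases hxs : x ∈ s
          · by_cases h5 : 0 < F x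
            · simp only [hxs, h5, and_self, if_true]
              rw [max_eq_left h5.le]; ring
            · simp only [hxs, h5, and_false, if_true, if_false]
              rw [max_eq_right (by linarith)]; ring
          · simp [hxs]
      rw [Finset.sum_congr rfl fun x _ => h4 x, Finset.sum_add_distrib]
      simp [Finset.mul_sum]
    · intro x _
      simp only
      by_cases hx : x = o
      · simp [hx]
      · simp only [hx, if_false]
        by_cases hxs : x ∈ s
        · have hP := (hs x hxs).2
          simp only [hP, if_true]
          split_ifs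
          · exact ⟨hc, le_refl _⟩
          · exact ⟨le_refl _, hc⟩
        · simp only [hxs, false_and, if_false]
          refine ⟨le_refl _, ?_⟩
          split_ifs
          · exact hc
          · exact le_refl _
  have hsum : ∑ y, |g y| = F o + 2 * ∑ y, max (-(g y)) 0 := by
    simp only [hF, h1, mul_one]
    rw [Finset.mul_sum, ← Finset.sum_add_distrib]
    refine Finset.sum_congr rfl fun y _ => ?_
    rcases le_total 0 (g y) with h | h
    · rw [abs_of_nonneg h, max_eq_right (by linarith)]; ring
    · rw [abs_of_nonpos h, max_eq_left (by linarith)]; ring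
  have habs : 0 ≤ ∑ y, |g y| := Finset.sum_nonneg fun y _ => abs_nonneg _
  have hC : ∀ s : Finset X, (∀ x ∈ s, x ≠ o ∧ P x) →
      ∑ y, |g y| + c * ∑ x ∈ s, max (F x) 0 < m * g o := by
    intro s hs
    have := hB s hs
    linarith
  rcases hg0.eq_or_lt with h0 | hpos
  · have := hC ∅ (by simp)
    rw [← h0] at this
    simp only [Finset.sum_empty, mul_zero, add_zero] at this
    linarith
  · have hle : ∑ y, |g y| ≤ m * g o := by
      have := hC ∅ (by simp)
      simp only [Finset.sum_empty, mul_zero, add_zero] at this
      exact this.le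
    obtain ⟨s, hs, hms⟩ := H (fun y => g y / g o) (div_self hpos.ne') (by
      simp only [abs_div, abs_of_pos hpos]
      rw [← Finset.sum_div, div_le_iff₀ hpos]
      exact hle)
    have h5 : ∑ x ∈ s, max (∑ y, g y / g o * χ x y) 0 = (∑ x ∈ s, max (F x) 0) / g o := by
      rw [Finset.sum_div]
      refine Finset.sum_congr rfl fun x _ => ?_
      have : ∑ y, g y / g o * χ x y = F x / g o := by
        simp only [hF]
        rw [Finset.sum_div]
        refine Finset.sum_congr rfl fun y _ => by ring
      rw [this, ← max_div_div_right hpos.le, zero_div]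
    rw [h5, ← mul_div_assoc, le_div_iff₀ hpos] at hms
    have := hC s hs
    linarith

end sep

/-- The linear program with caps. -/
theorem capped {n d : ℕ} {m κ : ℝ} (hd : 0 < d) (hm : 0 < m) (hk1 : κ < 1)
    (h : Robust n d m κ) :
    ∃ b : (Fin n → Bool) → ℝ, b (fun _ => false) = 1 ∧ (∀ x, 0 ≤ b x) ∧
      (∀ x, x ≠ (fun _ => false) → (univ.filter fun i => x i = true).card < d → b x = 0) ∧
      (∀ x, x ≠ (fun _ => false) → b x ≤ (1 / (1 - κ)) * (m / 2 ^ n)) ∧ m ≤ ∑ x, b x ∧
      (∀ y, y ≠ (fun _ => false) → 0 ≤ ∑ x, b x * Tensor.chi x y ∧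
        ∑ x, b x * Tensor.chi x y ≤ 2) := by
  have hk : 0 < 1 - κ := by linarith
  obtain ⟨b, h1, h2, h3, h4, h5, h6⟩ := capped_aux (X := Fin n → Bool) (fun _ => false)
    (fun x => d ≤ (univ.filter fun i => x i = true).card) Tensor.chi Tensor.chi_zero_left
    (c := (1 / (1 - κ)) * (m / 2 ^ n)) (m := m) (by positivity) (by
      intro g hg0 hg
      refine ⟨univ.filter (fun x : Fin n → Bool => d ≤ (univ.filter fun i => x i = true).card),
        ?_, ?_⟩
      · intro x hx
        rw [Finset.mem_filter] at hx
        refine ⟨?_, hx.2⟩
        rintro rfl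
        have := hx.2
        simp at this
        omega
      · have := h g hg0 hg
        have h2 : (0 : ℝ) < 2 ^ n := by positivity
        rw [inv_mul_eq_div, lt_div_iff₀ h2] at this
        set S := ∑ x ∈ univ.filter (fun x : Fin n → Bool =>
          d ≤ (univ.filter fun i => x i = true).card), max (∑ y, g y * Tensor.chi x y) 0
        rw [div_mul_div_comm, one_mul, div_mul_eq_mul_div, le_div_iff₀ (by positivity)]
        exact mul_le_mul_of_nonneg_left this.le hm.le)
  refine ⟨b, h1, h2, ?_, h4, ?_, h6⟩
  · intro x hx hlt
    exact h3 x hx (not_le.2 hlt)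
  · simpa [Tensor.chi_zero_right] using h5

end Pool.Agent.Lib.MP_0430e4_lc.Hier
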