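import Pool.Agent.Lib.MP_0430e4_lc.Hier.Defs
import Pool.Agent.Lib.MP_0430e4_lc.LPLOW.Robust

/-!
# The robust form from the coefficient estimate
-/

set_option autoImplicit false

namespace Pool.Agent.Lib.MP_0430e4_lc.Hier

open Finset Filter Topology

theorem robust_of_coef {R R' δ : ℝ} (hδ1 : δ ≤ 1) (hR : R' < R) (h : LPLOW.CoefBound R δ) :
    ∃ ε : ℝ, 0 < ε ∧ ∀ᶠ n : ℕ in atTop,
      Robust n ⌈δ * n⌉₊ (Real.exp (n * R')) (Real.exp (-(n * ε))) := by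
  obtain ⟨ε, hε, hev⟩ := LPLOW.robust_of_coef hδ1 hR h
  refine ⟨ε, hε, ?_⟩
  filter_upwards [hev] with n hn g hg0 hg
  have h1 := hn g hg0 hg
  rw [Finset.sum_filter]
  exact h1

end Pool.Agent.Lib.MP_0430e4_lc.Hier
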