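import Pool.Agent.Lib.MP_0430e4_lc.Hier.Defs

/-!
# Codes, the semidefinite bound of level `k`, and Delsarte's linear program
-/

set_option autoImplicit false

namespace Pool.Agent.Lib.MP_0430e4_lc.Hier

open Finset
open Tensor (chi)

section general

variable {V : Type*} [DecidableEq V]

theorem condMat_empty (y : Finset V → ℝ) (T : Finset V) (a b : Option V) :
    condMat y T ∅ a b = y (T ∪ a.toFinset ∪ b.toFinset) := by
  unfold condMat
  simp

/-- the basic quadratic form -/
theorem IsPseudo.form [Fintype V] {k : ℕ} {y : Finset V → ℝ} (h : IsPseudo k y) (hk : 2 ≤ k)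
    (c : ℝ) (f : V → ℝ) :
    0 ≤ c ^ 2 + 2 * c * ∑ u, f u * y {u} + ∑ u, ∑ v, f u * f v * y {u, v} := by
  have h1 := h.psd ∅ ∅ (disjoint_empty_left _) (by simpa using hk)
    (fun a => a.elim c f)
  simp only [condMat_empty, Fintype.sum_option, Option.elim, Option.toFinset_none,
    Option.toFinset_some, empty_union, union_empty] at h1
  rw [h.empty] at h1
  have e1 : ∀ u v : V, ({u} ∪ {v} : Finset V) = {u, v} := fun u v => rfl
  simp only [e1, sum_add_distrib] at h1
  have e2 : ∑ u, c * f u * y {u} = c * ∑ u, f u * y {u} := by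
    rw [mul_sum]
    exact sum_congr rfl fun u _ => by ring
  have e3 : ∑ u, f u * c * y {u} = c * ∑ u, f u * y {u} := by
    rw [mul_sum]
    exact sum_congr rfl fun u _ => by ring
  rw [e2, e3] at h1
  linarith

theorem IsPseudo.le_one [Fintype V] {k : ℕ} {y : Finset V → ℝ} (h : IsPseudo k y) (hk : 2 ≤ k)
    (x : V) : y {x} ≤ 1 := by
  have h1 := h.form hk 1 (fun u => if u = x then -1 else 0)
  simp only [ite_mul, mul_ite, zero_mul, mul_zero, sum_ite_eq', mem_univ, if_true] at h1
  simp at h1
  linarith

theorem IsPseudo.pair_nonneg [Fintype V] {k : ℕ} {y : Finset V → ℝ} (h : IsPseudo k y)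
    (hk : 3 ≤ k) (x x' : V) : 0 ≤ y {x, x'} := by
  have h1 := h.psd {x} ∅ (disjoint_empty_right _) (by simpa using hk)
    (fun a => if a = some x' then 1 else 0)
  simp only [condMat_empty, ite_mul, mul_ite, zero_mul, mul_zero, one_mul, sum_ite_eq',
    mem_univ, if_true] at h1
  simp only [Option.toFinset_some] at h1
  have e1 : ({x} ∪ {x'} ∪ {x'} : Finset V) = {x, x'} := by
    rw [union_assoc, union_idempotent]
    rfl
  rwa [e1] at h1

/-- The moments of a set. -/
theorem isPseudo_indicator [Fintype V] (k : ℕ) (C : Finset V) :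
    IsPseudo k (fun S : Finset V => if S ⊆ C then (1 : ℝ) else 0) := by
  constructor
  · simp
  · intro T N hTN _ f
    set e : Option V → ℝ := fun a => if a.toFinset ⊆ C then 1 else 0 with he
    set K : ℝ := (if T ⊆ C then 1 else 0) * ∑ N' ∈ N.powerset,
      (-1) ^ N'.card * (if N' ⊆ C then (1 : ℝ) else 0) with hK
    have hK0 : 0 ≤ K := by
      rw [hK]
      apply mul_nonneg
      · split_ifs <;> norm_num
      · have e1 : ∑ N' ∈ N.powerset, (-1) ^ N'.card * (if N' ⊆ C then (1 : ℝ) else 0)
            = ∑ N' ∈ (N ∩ C).powerset, (-1 : ℝ) ^ N'.card := by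
          have e2 : (N ∩ C).powerset = N.powerset.filter (fun N' => N' ⊆ C) := by
            ext N'
            simp only [mem_powerset, mem_filter, subset_inter_iff]
          rw [e2, sum_filter]
          exact sum_congr rfl fun N' _ => by split_ifs <;> simp
        rw [e1]
        have e3 := Finset.sum_powerset_neg_one_pow_card (x := N ∩ C)
        have e4 : ∑ N' ∈ (N ∩ C).powerset, (-1 : ℝ) ^ N'.card
            = ((∑ N' ∈ (N ∩ C).powerset, (-1 : ℤ) ^ N'.card : ℤ) : ℝ) := by
          push_cast
          rfl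
        rw [e4, e3]
        split_ifs <;> norm_num
    have key : ∀ a b : Option V,
        condMat (fun S : Finset V => if S ⊆ C then (1 : ℝ) else 0) T N a b = K * (e a * e b) := by
      intro a b
      unfold condMat
      rw [hK, mul_assoc, mul_comm (∑ N' ∈ N.powerset, _) _, ← mul_assoc, mul_sum]
      apply sum_congr rfl
      intro N' _
      simp only [he, union_subset_iff]
      by_cases h1 : T ⊆ C <;> by_cases h2 : N' ⊆ C <;> by_cases h3 : a.toFinset ⊆ C <;>
        by_cases h4 : b.toFinset ⊆ C <;> simp [h1, h2, h3, h4]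
    have e5 : ∑ a, ∑ b, f a * f b *
        condMat (fun S : Finset V => if S ⊆ C then (1 : ℝ) else 0) T N a b
        = K * (∑ a, f a * e a) ^ 2 := by
      simp only [key]
      rw [sq, sum_mul_sum, mul_sum]
      apply sum_congr rfl
      intro a _
      rw [mul_sum]
      exact sum_congr rfl fun b _ => by ring
    rw [e5]
    exact mul_nonneg hK0 (sq_nonneg _)

end general

variable {n d k : ℕ}

theorem sdp_bdd (hk : 2 ≤ k) : BddAbove {s : ℝ | ∃ y : Finset (Fin n → Bool) → ℝ, IsPseudo k y ∧
    (∀ S : Finset (Fin n → Bool), (∃ u ∈ S, ∃ v ∈ S, u ≠ v ∧ hammingDist u v < d) → y S = 0) ∧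
    s = ∑ x, y {x}} := by
  refine ⟨2 ^ n, ?_⟩
  rintro s ⟨y, hy, -, rfl⟩
  refine (sum_le_sum fun x _ => hy.le_one hk x).trans ?_
  simp

/-- The size of a code is at most the bound of level `k`. -/
theorem maxCode_le_sdp (hk : 2 ≤ k) : (Tensor.maxCode n d : ℝ) ≤ sdp k n d := by
  classical
  obtain ⟨C, hC, hcard⟩ := Tensor.maxCode_attained n d
  rw [← hcard]
  apply le_csSup (sdp_bdd hk)
  refine ⟨fun S => if S ⊆ C then 1 else 0, isPseudo_indicator k C, ?_, ?_⟩
  · rintro S ⟨u, hu, v, hv, huv, hd⟩
    apply if_neg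
    intro hS
    have := hC u (hS hu) v (hS hv) huv
    omega
  · simp only [singleton_subset_iff]
    simp

theorem one_le_sdp (hk : 2 ≤ k) : 1 ≤ sdp k n d := by
  refine le_trans ?_ (maxCode_le_sdp hk)
  exact_mod_cast Tensor.one_le_maxCode n d

theorem xor_xor (x u : Fin n → Bool) : (fun i => xor (x i) (xor (x i) (u i))) = u := by
  funext i
  cases x i <;> cases u i <;> rfl

/-- The change of variables `u ↦ x xor u`. -/
theorem sum_xor (x : Fin n → Bool) (F : (Fin n → Bool) → ℝ) :
    ∑ u : Fin n → Bool, F (fun i => xor (x i) (u i)) = ∑ v, F v := by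
  apply Fintype.sum_bijective (fun u : Fin n → Bool => (fun i => xor (x i) (u i)))
  · constructor
    · intro u u' h
      have h1 : (fun i => xor (x i) (xor (x i) (u i))) = (fun i => xor (x i) (xor (x i) (u' i))) := by
        funext i
        have := congrFun h i
        simp only at this
        rw [this]
      rwa [xor_xor, xor_xor] at h1
    · intro v
      exact ⟨fun i => xor (x i) (v i), xor_xor x v⟩
  · intro u
    rfl

/-- The bound of level `k ≥ 3` is at most the value of Delsarte's linear program. -/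
theorem sdp_le_lp (hk : 3 ≤ k) : sdp k n d ≤ Impr.lpBound n d := by
  apply csSup_le
  · refine ⟨_, fun S => if S ⊆ (∅ : Finset (Fin n → Bool)) then (1 : ℝ) else 0,
      isPseudo_indicator k ∅, ?_, rfl⟩
    rintro S ⟨u, hu, -⟩
    apply if_neg
    intro hS
    exact absurd (hS hu) (notMem_empty u)
  rintro s ⟨y, hy, h0, rfl⟩
  set s : ℝ := ∑ x, y {x} with hs
  rcases le_or_gt s 0 with hs0 | hs0
  · exact (hs0.trans zero_le_one).trans (Impr.one_le_lpBound n d)
  set β : (Fin n → Bool) → ℝ := fun u => (∑ x : Fin n → Bool, y {x, fun i => xor (x i) (u i)}) / s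
    with hβ
  have hsum : ∀ F : (Fin n → Bool) → ℝ, ∑ u, β u * F u
      = (∑ x, ∑ x', y {x, x'} * F (fun i => xor (x i) (x' i))) / s := by
    intro F
    simp only [hβ, div_mul_eq_mul_div, sum_mul]
    rw [← sum_div, sum_comm]
    congr 1
    apply sum_congr rfl
    intro x _
    have := sum_xor x (fun v => y {x, v} * F (fun i => xor (x i) (v i)))
    rw [← this]
    apply sum_congr rfl
    intro u _
    simp only
    rw [xor_xor]
  have hge : s ≤ ∑ u, β u := by
    have h1 := hy.form (by omega) (-s) (fun _ => 1)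
    have h2 := hsum (fun _ => 1)
    simp only [mul_one, one_mul] at h1 h2
    rw [h2, le_div_iff₀ hs0]
    rw [← hs] at h1
    nlinarith
  refine hge.trans ?_
  apply le_csSup (Impr.lpBound_bdd n d)
  refine ⟨β, ?_, ?_, ?_, ?_, rfl⟩
  · simp only [hβ]
    have : ∀ x : Fin n → Bool, (fun i => xor (x i) false) = x := by
      intro x
      funext i
      simp
    simp only [this, pair_eq_singleton]
    exact div_self hs0.ne'
  · intro u
    simp only [hβ]
    exact div_nonneg (sum_nonneg fun x _ => hy.pair_nonneg hk _ _) hs0.le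
  · intro u hu hd
    simp only [hβ]
    rw [sum_eq_zero, zero_div]
    intro x _
    apply h0
    refine ⟨x, by simp, fun i => xor (x i) (u i), by simp, ?_, ?_⟩
    · intro h
      apply hu
      funext i
      have := congrFun h i
      revert this
      cases x i <;> cases u i <;> simp
    · rw [Tensor.hammingDist_eq_card_xor]
      have e : (fun i => xor (x i) (xor (x i) (u i))) = u := xor_xor x u
      have e' : ∀ i, xor (x i) (xor (x i) (u i)) = u i := fun i => congrFun e i
      simp only [e']
      exact hd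
  · intro w
    rw [hsum]
    apply div_nonneg _ hs0.le
    have h1 := hy.form (by omega) 0 (fun x => chi x w)
    simp only [Tensor.chi_xor]
    have e : ∑ x, ∑ x', y {x, x'} * (chi x w * chi x' w)
        = ∑ u, ∑ v, chi u w * chi v w * y {u, v} :=
      sum_congr rfl fun x _ => sum_congr rfl fun x' _ => by ring
    rw [e]
    simpa using h1

end Pool.Agent.Lib.MP_0430e4_lc.Hier
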