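import Pool.Agent.Lib.MP_0430e4_lc.Hier.Dual
import Pool.Agent.Lib.MP_0430e4_lc.LPL.CUB1

/-!
# The pair correlation attached to a feasible point of the linear program with caps
-/

set_option autoImplicit false

namespace Pool.Agent.Lib.MP_0430e4_lc.Hier

open Finset
open Tensor (chi)

variable {n : ℕ}

/-- inversion -/
theorem sum_hat_mul_chi (b : (Fin n → Bool) → ℝ) (z : Fin n → Bool) :
    ∑ y, (∑ x, b x * chi x y) * chi z y = 2 ^ n * b z := by
  simp only [Finset.sum_mul]
  rw [Finset.sum_comm]
  have : ∀ x, ∑ y, b x * chi x y * chi z y = if x = z then 2 ^ n * b z else 0 := by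
    intro x
    have h1 : ∑ y, b x * chi x y * chi z y = b x * ∑ y, chi x y * chi z y := by
      rw [Finset.mul_sum]
      exact Finset.sum_congr rfl fun y _ => by ring
    rw [h1, LPL.sum_chi_mul]
    split_ifs with h
    · subst h; ring
    · ring
  rw [Finset.sum_congr rfl fun x _ => this x]
  simp

/-- the form of a function of the difference -/
theorem sum_xor_form (b f : (Fin n → Bool) → ℝ) :
    2 ^ n * ∑ u, ∑ v, f u * f v * b (fun i => xor (u i) (v i)) =
      ∑ y, (∑ x, b x * chi x y) * (∑ u, f u * chi u y) ^ 2 := by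
  have h1 : ∀ y, (∑ x, b x * chi x y) * (∑ u, f u * chi u y) ^ 2 =
      ∑ u, ∑ v, f u * f v * ((∑ x, b x * chi x y) * chi (fun i => xor (u i) (v i)) y) := by
    intro y
    rw [sq, Finset.sum_mul_sum, Finset.mul_sum]
    refine Finset.sum_congr rfl fun u _ => ?_
    rw [Finset.mul_sum]
    refine Finset.sum_congr rfl fun v _ => ?_
    rw [Tensor.chi_xor]
    ring
  rw [Finset.sum_congr rfl fun y _ => h1 y]
  have h2 : ∑ y, ∑ u, ∑ v, f u * f v *
      ((∑ x, b x * chi x y) * chi (fun i => xor (u i) (v i)) y) =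
      ∑ u, ∑ v, ∑ y, f u * f v *
        ((∑ x, b x * chi x y) * chi (fun i => xor (u i) (v i)) y) := by
    rw [Finset.sum_comm]
    refine Finset.sum_congr rfl fun u _ => ?_
    rw [Finset.sum_comm]
  rw [h2, Finset.mul_sum]
  refine Finset.sum_congr rfl fun u _ => ?_
  rw [Finset.mul_sum]
  refine Finset.sum_congr rfl fun v _ => ?_
  rw [← Finset.mul_sum, sum_hat_mul_chi]
  ring

theorem sum_hat_sq (f : (Fin n → Bool) → ℝ) :
    ∑ y, (∑ u, f u * chi u y) ^ 2 = 2 ^ n * ∑ u, f u ^ 2 := by
  have := LPL.parseval f f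
  unfold LPL.hat at this
  simpa [sq] using this

/-- the operator bound -/
theorem hop {b : (Fin n → Bool) → ℝ} (h1 : b (fun _ => false) = 1) {p : ℝ}
    (hM : (∑ x, b x) = 2 ^ n * p) (hp : 0 < p)
    (hy : ∀ y, y ≠ (fun _ => false) → 0 ≤ ∑ x, b x * chi x y ∧ ∑ x, b x * chi x y ≤ 2)
    (f : (Fin n → Bool) → ℝ) :
    |∑ u, ∑ v, f u * f v *
      ((if u = v then 0 else b (fun i => xor (u i) (v i)) / p) - 1)| ≤ (∑ u, f u ^ 2) / p := by
  have h2 : (0 : ℝ) < 2 ^ n := by positivity
  -- the quadratic form in Fourier coordinates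
  have key : 2 ^ n * p * ∑ u, ∑ v, f u * f v *
      ((if u = v then 0 else b (fun i => xor (u i) (v i)) / p) - 1) =
      ∑ y, ((∑ x, b x * chi x y) - 1 - if y = (fun _ => false) then 2 ^ n * p else 0) *
        (∑ u, f u * chi u y) ^ 2 := by
    have e1 : ∀ u v : Fin n → Bool, f u * f v *
        ((if u = v then 0 else b (fun i => xor (u i) (v i)) / p) - 1) =
        f u * f v * b (fun i => xor (u i) (v i)) / p - (if u = v then f u ^ 2 / p else 0)
          - f u * f v := by
      intro u v
      split_ifs with huv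
      · subst huv
        simp only [Bool.xor_self, h1]
        ring
      · ring
    have e2 : ∑ u, ∑ v, f u * f v *
        ((if u = v then 0 else b (fun i => xor (u i) (v i)) / p) - 1) =
        (∑ u, ∑ v, f u * f v * b (fun i => xor (u i) (v i))) / p - (∑ u, f u ^ 2) / p
          - (∑ u, f u) ^ 2 := by
      simp only [e1, Finset.sum_sub_distrib, Finset.sum_div]
      congr 1
      · congr 1
        refine Finset.sum_congr rfl fun u _ => ?_
        rw [Finset.sum_ite_eq]
        simp
      · rw [sq, Finset.sum_mul_sum]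
    rw [e2]
    have e3 : 2 ^ n * p * ((∑ u, ∑ v, f u * f v * b (fun i => xor (u i) (v i))) / p
        - (∑ u, f u ^ 2) / p - (∑ u, f u) ^ 2) =
        2 ^ n * (∑ u, ∑ v, f u * f v * b (fun i => xor (u i) (v i)))
        - 2 ^ n * (∑ u, f u ^ 2) - 2 ^ n * p * (∑ u, f u) ^ 2 := by
      field_simp
    rw [e3, sum_xor_form, ← sum_hat_sq]
    simp only [sub_mul, Finset.sum_sub_distrib, one_mul, ite_mul, zero_mul]
    congr 1
    rw [Finset.sum_ite_eq' Finset.univ]
    simp [Tensor.chi_zero_right]
  have hc : ∀ y : Fin n → Bool,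
      |(∑ x, b x * chi x y) - 1 - if y = (fun _ => false) then 2 ^ n * p else 0| ≤ 1 := by
    intro y
    split_ifs with h
    · subst h
      simp only [Tensor.chi_zero_right, mul_one, hM]
      rw [show (2 : ℝ) ^ n * p - 1 - 2 ^ n * p = -1 by ring]
      norm_num
    · rw [sub_zero, abs_le]
      have := hy y h
      constructor <;> linarith [this.1, this.2]
  have h3 : |2 ^ n * p * ∑ u, ∑ v, f u * f v *
      ((if u = v then 0 else b (fun i => xor (u i) (v i)) / p) - 1)| ≤ 2 ^ n * ∑ u, f u ^ 2 := by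
    rw [key, ← sum_hat_sq]
    refine (Finset.abs_sum_le_sum_abs _ _).trans (Finset.sum_le_sum fun y _ => ?_)
    rw [abs_mul, abs_of_nonneg (sq_nonneg (∑ u, f u * chi u y))]
    exact mul_le_of_le_one_left (sq_nonneg _) (hc y)
  rw [abs_mul, abs_of_pos (by positivity)] at h3
  rw [le_div_iff₀ hp]
  have h4 : 2 ^ n * (|∑ u, ∑ v, f u * f v *
      ((if u = v then 0 else b (fun i => xor (u i) (v i)) / p) - 1)| * p) ≤
      2 ^ n * ∑ u, f u ^ 2 := by
    refine le_trans (le_of_eq (by ring)) h3
  exact le_of_mul_le_mul_left h4 h2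

/-- the pair correlation of a code-like object of size at least `m` -/
theorem pair {d : ℕ} {m κ : ℝ} (hd : 0 < d) (hm : 0 < m) (hk1 : κ < 1)
    (h : Robust n d m κ) :
    ∃ (p : ℝ) (g : (Fin n → Bool) → (Fin n → Bool) → ℝ), 0 < p ∧ p ≤ 1 ∧ m ≤ 2 ^ n * p ∧
      (∀ u v, g u v = g v u) ∧ (∀ u, g u u = 0) ∧ (∀ u v, 0 ≤ g u v) ∧
      (∀ u v, g u v ≤ 1 / (1 - κ)) ∧ (∀ u v, hammingDist u v < d → g u v = 0) ∧
      ∀ f : (Fin n → Bool) → ℝ, |∑ u, ∑ v, f u * f v * (g u v - 1)| ≤ (∑ u, f u ^ 2) / p := by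
  obtain ⟨b, h1, h2, h3, h4, h5, h6⟩ := capped hd hm hk1 h
  have h2n : (0 : ℝ) < 2 ^ n := by positivity
  have hk : 0 < 1 - κ := by linarith
  set p : ℝ := (∑ x, b x) / 2 ^ n with hpdef
  have hM : (∑ x, b x) = 2 ^ n * p := by rw [hpdef]; field_simp
  have hp : 0 < p := div_pos (hm.trans_le h5) h2n
  have hp1 : p ≤ 1 := by
    have e1 := sum_hat_mul_chi b (fun _ => false)
    rw [h1, mul_one] at e1
    have e2 : ∑ x, b x ≤ 2 ^ n := by
      rw [← e1]
      have : ∑ x, b x = (∑ x, b x * chi x (fun _ => false)) *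
          chi (fun _ => false) (fun _ : Fin n => false) := by
        simp [Tensor.chi_zero_right]
      rw [this]
      refine Finset.single_le_sum
        (f := fun y => (∑ x, b x * chi x y) * chi (fun _ => false) y) ?_ (Finset.mem_univ _)
      intro y _
      simp only [Tensor.chi_zero_left, mul_one]
      by_cases hy : y = fun _ => false
      · subst hy
        simp only [Tensor.chi_zero_right, mul_one]
        linarith
      · exact (h6 y hy).1
    rw [hpdef, div_le_one h2n]
    exact e2
  have hxor : ∀ u v : Fin n → Bool, (fun i => xor (u i) (v i)) = (fun _ => false) → u = v := by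
    intro u v huv
    funext i
    have := congrFun huv i
    simpa using this
  refine ⟨p, fun u v => if u = v then 0 else b (fun i => xor (u i) (v i)) / p, hp, hp1, ?_, ?_,
    ?_, ?_, ?_, ?_, ?_⟩
  · rw [← hM]; exact h5
  · intro u v
    by_cases huv : u = v
    · simp [huv]
    · simp only [huv, if_false, Ne.symm huv]
      have : (fun i => xor (u i) (v i)) = fun i => xor (v i) (u i) := by
        funext i; exact Bool.xor_comm _ _
      rw [this]
  · intro u; simp
  · intro u v
    dsimp only
    split_ifs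
    · exact le_refl _
    · exact div_nonneg (h2 _) hp.le
  · intro u v
    dsimp only
    split_ifs with huv
    · positivity
    · rw [div_le_iff₀ hp]
      have e := h4 (fun i => xor (u i) (v i)) fun hh => huv (hxor u v hh)
      refine e.trans ?_
      apply mul_le_mul_of_nonneg_left _ (by positivity)
      rw [hpdef]
      exact div_le_div_of_nonneg_right h5 h2n.le
  · intro u v hlt
    dsimp only
    split_ifs with huv
    · rfl
    · rw [h3 _ (fun hh => huv (hxor u v hh)), zero_div]
      rw [← Tensor.hammingDist_eq_card_xor]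
      exact hlt
  · exact hop h1 hM hp h6

end Pool.Agent.Lib.MP_0430e4_lc.Hier
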