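import Pool.Agent.Lib.MP_0430e4_lc.Hier.Lift
import Pool.Agent.Lib.MP_0430e4_lc.Hier.Dual
import Pool.Agent.Lib.MP_0430e4_lc.Hier.Spec
import Pool.Agent.Lib.MP_0430e4_lc.Hier.RobustCoef
import Pool.Agent.Lib.MP_0430e4_lc.Hier.Sdp

/-!
# The exponent of the hierarchy
-/

set_option autoImplicit false

namespace Pool.Agent.Lib.MP_0430e4_lc.Hier

open Finset Filter Topology

theorem sdp_ge {n d k : ℕ} {m κ : ℝ} (hd : 0 < d) (hm : 0 < m) (hk : 2 ≤ k) (hκ0 : 0 ≤ κ)
    (hκ : κ ≤ 1 / 2) (h : Robust n d m κ) :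
    m / (40 * k * (1 / (1 - κ)) ^ k) ≤ sdp k n d := by
  obtain ⟨p, g, hp, hp1, hpm, g1, g2, g3, g4, g5, g6⟩ := pair hd hm (by linarith) h
  have hκ1 : 0 < 1 - κ := by linarith
  set c : ℝ := 1 / (1 - κ) with hc
  have hc1 : 1 ≤ c := by
    rw [hc, le_div_iff₀ hκ1]
    linarith
  have hc2 : c ≤ 2 := by
    rw [hc, div_le_iff₀ hκ1]
    linarith
  obtain ⟨y, y1, y2, y3⟩ := lift hp hp1 hc1 hc2 g1 g2 g3 g4 g6 (k := k) (by omega)
  have hk0 : (0 : ℝ) < k := by
    have : 0 < k := by omega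
    exact_mod_cast this
  have hsum : ∑ x, y {x} = (2 ^ n * p) / (40 * k * c ^ k) := by
    simp only [y2, sum_const, card_univ, Fintype.card_fun, Fintype.card_bool, Fintype.card_fin,
      nsmul_eq_mul]
    push_cast
    rw [mul_div_assoc]
  refine le_trans ?_ (le_csSup (sdp_bdd hk) ⟨y, y1, ?_, hsum.symm⟩)
  · apply div_le_div_of_nonneg_right hpm
    have : 0 < c := by linarith
    positivity
  · rintro S ⟨u, hu, v, hv, huv, hdist⟩
    exact y3 S ⟨u, hu, v, hv, huv, g5 u v hdist⟩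

theorem eventually_ge {R R' δ : ℝ} (h0 : 0 < δ) (h1 : δ < 1 / 2) (hc : LPLOW.CoefBound R δ)
    (hR : R' < R) {k : ℕ → ℕ} (hk : ∀ n, 3 ≤ k n)
    (hlog : Tendsto (fun n : ℕ => Real.log (k n) / n) atTop (𝓝 0)) :
    ∀ᶠ n : ℕ in atTop, Real.exp (n * R') / (40 * k n * Real.exp 2) ≤ sdp (k n) n ⌈δ * n⌉₊ := by
  obtain ⟨ε, hε, hrob⟩ := robust_of_coef (by linarith) hR hc
  have hlim : Tendsto (fun n : ℕ => Real.exp (-(n * ε))) atTop (𝓝 0) := by
    apply Real.tendsto_exp_neg_atTop_nhds_zero.comp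
    exact Tendsto.atTop_mul_const hε tendsto_natCast_atTop_atTop
  filter_upwards [hrob, hlog.eventually_lt_const hε, eventually_gt_atTop 0,
    hlim.eventually_lt_const (show (0 : ℝ) < 1 / 2 by norm_num)] with n hn1 hn2 hn3 hn4
  have hn0 : (0 : ℝ) < n := by exact_mod_cast hn3
  have hk3 := hk n
  have hk0 : (0 : ℝ) < k n := by
    have : 0 < k n := by omega
    exact_mod_cast this
  set κ : ℝ := Real.exp (-(n * ε)) with hκ
  have hκ0 : 0 < κ := Real.exp_pos _
  have hd : 0 < ⌈δ * n⌉₊ := Nat.ceil_pos.2 (mul_pos h0 hn0)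
  refine le_trans ?_ (sdp_ge hd (Real.exp_pos _) (by omega) hκ0.le hn4.le hn1)
  have hκ1 : 0 < 1 - κ := by linarith
  apply div_le_div_of_nonneg_left (Real.exp_pos _).le (by positivity)
  apply mul_le_mul_of_nonneg_left _ (by positivity)
  -- `(1/(1-κ))^k ≤ exp 2`
  have e1 : 1 / (1 - κ) ≤ Real.exp (2 * κ) := by
    rw [div_le_iff₀ hκ1]
    have e2 : 2 * κ + 1 ≤ Real.exp (2 * κ) := Real.add_one_le_exp _
    have e3 : (2 * κ + 1) * (1 - κ) ≤ Real.exp (2 * κ) * (1 - κ) :=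
      mul_le_mul_of_nonneg_right e2 hκ1.le
    nlinarith
  have e4 : (1 / (1 - κ)) ^ k n ≤ Real.exp (2 * κ) ^ k n :=
    pow_le_pow_left₀ (by positivity) e1 _
  refine e4.trans ?_
  rw [← Real.exp_nat_mul]
  apply Real.exp_le_exp.2
  have e5 : (k n : ℝ) * κ ≤ 1 := by
    rw [div_lt_iff₀ hn0] at hn2
    have e6 : (k n : ℝ) = Real.exp (Real.log (k n)) := (Real.exp_log hk0).symm
    rw [e6, hκ, ← Real.exp_add]
    rw [Real.exp_le_one_iff]
    linarith
  nlinarith

theorem eventually_exp_ge {R R' δ : ℝ} (h0 : 0 < δ) (h1 : δ < 1 / 2) (hc : LPLOW.CoefBound R δ)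
    (hR : R' < R) {k : ℕ → ℕ} (hk : ∀ n, 3 ≤ k n)
    (hlog : Tendsto (fun n : ℕ => Real.log (k n) / n) atTop (𝓝 0)) :
    ∀ᶠ n : ℕ in atTop, R' / Real.log 2 < Real.logb 2 (sdp (k n) n ⌈δ * n⌉₊) / n := by
  obtain ⟨R1, hR1, hR2⟩ := exists_between hR
  have hlim : Tendsto (fun n : ℕ => R1 - (Real.log 40 + 2) * ((n : ℝ))⁻¹ - Real.log (k n) / n) atTop
      (𝓝 (R1 - (Real.log 40 + 2) * 0 - 0)) := by
    apply Tendsto.sub _ hlog
    apply Tendsto.const_sub
    exact (tendsto_inv_atTop_zero.comp tendsto_natCast_atTop_atTop).const_mul _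
  rw [mul_zero, sub_zero, sub_zero] at hlim
  filter_upwards [eventually_ge h0 h1 hc hR2 hk hlog, hlim.eventually_const_lt hR1,
    eventually_gt_atTop 0] with n hn1 hn2 hn3
  have hn0 : (0 : ℝ) < n := by exact_mod_cast hn3
  have hl2 : 0 < Real.log 2 := Real.log_pos (by norm_num)
  have hk3 := hk n
  have hk0 : (0 : ℝ) < k n := by
    have : 0 < k n := by omega
    exact_mod_cast this
  have h2 := Real.log_le_log (by positivity) hn1
  rw [Real.log_div (Real.exp_pos _).ne' (by positivity), Real.log_exp,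
    Real.log_mul (by positivity) (Real.exp_pos _).ne', Real.log_mul (by norm_num) hk0.ne',
    Real.log_exp] at h2
  unfold Real.logb
  rw [div_div, mul_comm (Real.log 2), ← div_div]
  apply div_lt_div_of_pos_right _ hl2
  refine hn2.trans_le ?_
  rw [le_div_iff₀ hn0]
  have e1 : (R1 - (Real.log 40 + 2) * (n : ℝ)⁻¹ - Real.log (k n) / n) * n
      = n * R1 - (Real.log 40 + Real.log (k n) + 2) := by
    field_simp
    ring
  rw [e1]
  exact h2

/-- If the coefficient estimate holds for all `R < L`, and `L / log 2` is the exponent of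
Delsarte's linear program, then it is the exponent of the hierarchy at all levels `k n` with
`log (k n) = o (n)`. -/
theorem tendsto_sdp {L δ : ℝ} (h0 : 0 < δ) (h1 : δ < 1 / 2)
    (hc : ∀ R : ℝ, R < L → LPLOW.CoefBound R δ)
    (hlp : Tendsto (fun n : ℕ => Real.logb 2 (Impr.lpBound n ⌈δ * n⌉₊) / n) atTop
      (𝓝 (L / Real.log 2)))
    {k : ℕ → ℕ} (hk : ∀ n, 3 ≤ k n)
    (hlog : Tendsto (fun n : ℕ => Real.log (k n) / n) atTop (𝓝 0)) :
    Tendsto (fun n : ℕ => Real.logb 2 (sdp (k n) n ⌈δ * n⌉₊) / n) atTop (𝓝 (L / Real.log 2)) := by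
  have hl2 : 0 < Real.log 2 := Real.log_pos (by norm_num)
  apply tendsto_order.2
  constructor
  · intro a ha
    rw [lt_div_iff₀ hl2] at ha
    obtain ⟨R, hR1, hR2⟩ := exists_between ha
    have h2 := eventually_exp_ge h0 h1 (hc R hR2) hR1 hk hlog
    rwa [mul_div_cancel_right₀ _ hl2.ne'] at h2
  · intro a ha
    filter_upwards [(tendsto_order.1 hlp).2 a ha] with n hn
    refine lt_of_le_of_lt ?_ hn
    apply div_le_div_of_nonneg_right _ (Nat.cast_nonneg n)
    apply Real.logb_le_logb_of_le (by norm_num)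
    · exact lt_of_lt_of_le one_pos (one_le_sdp (by have := hk n; omega))
    · exact sdp_le_lp (hk n)

end Pool.Agent.Lib.MP_0430e4_lc.Hier
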