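import Pool.Agent.Lib.MP_0430e4_lc.Impr.LPV

/-!
# The hierarchy of semidefinite bounds: definitions and interfaces

Level `k` of the hierarchy of Gvozdenović, Laurent and Vallentin for the stable set problem of
the graph on `{0,1}^n` in which two words are joined if their distance is less than `d`.
-/

set_option autoImplicit false

namespace Pool.Agent.Lib.MP_0430e4_lc.Hier

open Finset

section general

variable {V : Type*} [DecidableEq V]

/-- The entry `(a, b)` (`a`, `b` either `none`, for the empty set, or `some u`, for `{u}`) of the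
moment matrix of `y` conditioned on `T` (in the set) and `N` (not in the set). -/
def condMat (y : Finset V → ℝ) (T N : Finset V) (a b : Option V) : ℝ :=
  ∑ N' ∈ N.powerset, (-1) ^ N'.card * y (T ∪ N' ∪ a.toFinset ∪ b.toFinset)

/-- `y` is a family of pseudo-moments of level `k`. -/
structure IsPseudo [Fintype V] (k : ℕ) (y : Finset V → ℝ) : Prop where
  empty : y ∅ = 1
  psd : ∀ T N : Finset V, Disjoint T N → T.card + N.card + 2 ≤ k → ∀ f : Option V → ℝ,
    0 ≤ ∑ a, ∑ b, f a * f b * condMat y T N a b

end general

/-- The bound of level `k` for binary codes of length `n` and minimum distance `d`. -/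
noncomputable def sdp (k n d : ℕ) : ℝ :=
  sSup {s : ℝ | ∃ y : Finset (Fin n → Bool) → ℝ, IsPseudo k y ∧
    (∀ S : Finset (Fin n → Bool), (∃ u ∈ S, ∃ v ∈ S, u ≠ v ∧ hammingDist u v < d) → y S = 0) ∧
    s = ∑ x, y {x}}

/-- The robust form of the lower half at length `n`: `m` bounds the sum of the `|g y|`, and the
positive part of the transform of `g` on the words of weight at least `d` has mass more than
`1 - κ`. -/
def Robust (n d : ℕ) (m κ : ℝ) : Prop :=
  ∀ g : (Fin n → Bool) → ℝ, g (fun _ => false) = 1 → ∑ y, |g y| ≤ m →
    1 - κ < (2 ^ n : ℝ)⁻¹ *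
      ∑ x ∈ univ.filter (fun x : Fin n → Bool => d ≤ (univ.filter fun i => x i = true).card),
        max (∑ y, g y * Tensor.chi x y) 0

end Pool.Agent.Lib.MP_0430e4_lc.Hier
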