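import Pool.Agent.Lib.MP_0430e4_lc.Hier.Fin
import Pool.Agent.Lib.MP_0430e4_lc.Las.FIN
import Pool.Agent.Lib.MP_0430e4_lc.Las.TRIV

/-!
# The exponent of the hierarchy at levels of small exponential size
-/

set_option autoImplicit false

namespace Pool.Agent.Lib.MP_0430e4_lc.Hier

open Finset Filter Topology Real

/-- Diagonal argument: what holds along all sequences of levels of subexponential size holds
uniformly up to a level of small exponential size. -/
theorem exp_of_subexp {P : ℕ → ℕ → Prop}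
    (h : ∀ k : ℕ → ℕ, (∀ n, 3 ≤ k n) → Tendsto (fun n : ℕ => Real.log (k n) / n) atTop (𝓝 0) →
      ∀ᶠ n in atTop, P n (k n)) :
    ∃ κ : ℝ, 0 < κ ∧ ∃ n0 : ℕ, ∀ n ≥ n0, ∀ k : ℕ, 3 ≤ k → (k : ℝ) ≤ 2 ^ (κ * n) → P n k := by
  by_contra hcon
  push Not at hcon
  have h1 : ∀ m : ℕ, ∃ᶠ n : ℕ in atTop,
      ∃ k : ℕ, 3 ≤ k ∧ (k : ℝ) ≤ 2 ^ (1 / ((m : ℝ) + 1) * n) ∧ ¬ P n k := by
    intro m
    rw [frequently_atTop]
    intro a
    obtain ⟨n, hn, k, hk, hk2, hP⟩ := hcon (1 / ((m : ℝ) + 1)) (by positivity) a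
    exact ⟨n, hn, k, hk, hk2, hP⟩
  obtain ⟨φ, hφ, hφ2⟩ := extraction_forall_of_frequently h1
  choose K hK3 hKle hKP using hφ2
  classical
  let k : ℕ → ℕ := fun n => if hn : ∃ m, φ m = n then K hn.choose else 3
  have hkφ : ∀ m, k (φ m) = K m := by
    intro m
    have hex : ∃ m', φ m' = φ m := ⟨m, rfl⟩
    have h2 : k (φ m) = K hex.choose := dif_pos hex
    rw [h2, hφ.injective hex.choose_spec]
  have hk3 : ∀ n, 3 ≤ k n := by
    intro n
    by_cases hn : ∃ m, φ m = n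
    · obtain ⟨m, rfl⟩ := hn
      rw [hkφ]
      exact hK3 m
    · have h2 : k n = 3 := dif_neg hn
      rw [h2]
  have hlim : Tendsto (fun n : ℕ => Real.log (k n) / n) atTop (𝓝 0) := by
    rw [Metric.tendsto_atTop]
    intro ε hε
    obtain ⟨m0, hm0⟩ := exists_nat_gt (1 / ε)
    obtain ⟨n1, hn1⟩ := exists_nat_gt (2 / ε)
    refine ⟨max (φ m0) (n1 + 1), fun n hn => ?_⟩
    have hn0 : φ m0 ≤ n := (le_max_left _ _).trans hn
    have hn2 : n1 + 1 ≤ n := (le_max_right _ _).trans hn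
    have hnpos : (0 : ℝ) < n := by
      have : 0 < n := by omega
      exact_mod_cast this
    have hlogk : 0 ≤ Real.log (k n) := Real.log_nonneg (by
      have := hk3 n
      have h3 : 1 ≤ k n := by omega
      exact_mod_cast h3)
    rw [Real.dist_eq, sub_zero, abs_of_nonneg (div_nonneg hlogk hnpos.le), div_lt_iff₀ hnpos]
    by_cases hex : ∃ m, φ m = n
    · obtain ⟨m, rfl⟩ := hex
      have hm : m0 ≤ m := hφ.le_iff_le.mp hn0
      rw [hkφ]
      have h4 : Real.log (K m) ≤ 1 / ((m : ℝ) + 1) * (φ m) * Real.log 2 := by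
        have h5 : (0 : ℝ) < K m := by
          have := hK3 m
          have h6 : 0 < K m := by omega
          exact_mod_cast h6
        calc Real.log (K m) ≤ Real.log (2 ^ (1 / ((m : ℝ) + 1) * (φ m))) :=
              Real.log_le_log h5 (hKle m)
          _ = 1 / ((m : ℝ) + 1) * (φ m) * Real.log 2 := Real.log_rpow (by norm_num) _
      have h7 : Real.log 2 ≤ 1 := by
        have := Real.log_two_lt_d9
        linarith
      have h8 : 1 / ((m : ℝ) + 1) < ε := by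
        rw [div_lt_iff₀ (by positivity)]
        have h9 : (m0 : ℝ) ≤ m := by exact_mod_cast hm
        have h10 : 1 / ε < (m : ℝ) + 1 := by linarith
        rw [div_lt_iff₀ hε] at h10
        linarith
      have h11 : 0 ≤ 1 / ((m : ℝ) + 1) * (φ m : ℝ) := by positivity
      calc Real.log (K m) ≤ 1 / ((m : ℝ) + 1) * (φ m) * Real.log 2 := h4
        _ ≤ 1 / ((m : ℝ) + 1) * (φ m) * 1 := mul_le_mul_of_nonneg_left h7 h11
        _ = 1 / ((m : ℝ) + 1) * (φ m) := mul_one _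
        _ < ε * (φ m) := mul_lt_mul_of_pos_right h8 hnpos
    · have h2 : k n = 3 := dif_neg hex
      rw [h2]
      have h3 : Real.log ((3 : ℕ) : ℝ) ≤ 2 := by
        have h4 : Real.log ((3 : ℕ) : ℝ) ≤ ((3 : ℕ) : ℝ) - 1 := Real.log_le_sub_one_of_pos (by norm_num)
        have h5 : ((3 : ℕ) : ℝ) - 1 = 2 := by norm_num
        linarith
      have h6 : (n1 : ℝ) + 1 ≤ n := by exact_mod_cast hn2
      have h7 : 2 / ε < n := by linarith
      rw [div_lt_iff₀ hε] at h7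
      linarith
  obtain ⟨N, hN⟩ := eventually_atTop.mp (h k hk3 hlim)
  have h3 := hN (φ N) (hφ.id_le N)
  rw [hkφ] at h3
  exact hKP N h3

/-- Level of small exponential size: the exponent of the hierarchy stays that of Delsarte's linear
program. -/
theorem exp_level {δ : ℝ} (h0 : 0 < δ) (h1 : δ < 1 / 2) {ε : ℝ} (hε : 0 < ε) :
    ∃ κ : ℝ, 0 < κ ∧ ∃ n0 : ℕ, ∀ n ≥ n0, ∀ k : ℕ, 3 ≤ k → (k : ℝ) ≤ 2 ^ (κ * n) →
      (2 : ℝ) ^ ((n : ℝ) * (Tensor.ell δ - ε)) ≤ sdp k n ⌈δ * n⌉₊ ∧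
      sdp k n ⌈δ * n⌉₊ ≤ (2 : ℝ) ^ ((n : ℝ) * (Tensor.ell δ + ε)) := by
  apply exp_of_subexp (P := fun n k => (2 : ℝ) ^ ((n : ℝ) * (Tensor.ell δ - ε)) ≤ sdp k n ⌈δ * n⌉₊ ∧
      sdp k n ⌈δ * n⌉₊ ≤ (2 : ℝ) ^ ((n : ℝ) * (Tensor.ell δ + ε)))
  intro k hk hlog
  have h2 := tendsto_sdp_ell h0 h1 hk hlog
  have h3 := h2.eventually (Ioo_mem_nhds (a := Tensor.ell δ - ε) (b := Tensor.ell δ + ε)
    (by linarith) (by linarith))
  filter_upwards [h3, eventually_gt_atTop 0] with n hn hn0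
  have hnpos : (0 : ℝ) < n := by exact_mod_cast hn0
  have hpos : 0 < sdp (k n) n ⌈δ * n⌉₊ := by
    by_contra hneg
    push Not at hneg
    have h4 := maxCode_le_sdp (n := n) (d := ⌈δ * n⌉₊) (show 2 ≤ k n by have := hk n; omega)
    have h5 : (1 : ℝ) ≤ (Tensor.maxCode n ⌈δ * n⌉₊ : ℝ) := by
      have := Tensor.one_le_maxCode n ⌈δ * n⌉₊
      exact_mod_cast this
    linarith
  obtain ⟨h6, h7⟩ := hn
  rw [lt_div_iff₀ hnpos] at h6
  rw [div_lt_iff₀ hnpos] at h7
  constructor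
  · rw [← Real.le_logb_iff_rpow_le (by norm_num) hpos]
    linarith
  · rw [← Real.logb_le_iff_le_rpow (by norm_num) hpos]
    linarith

/-- The exponent of Delsarte's linear program is larger than the Gilbert-Varshamov exponent. -/
theorem gv_lt_ell {δ : ℝ} (h0 : 0 < δ) (h1 : δ < 1 / 2) : 1 - Las.H2 δ < Tensor.ell δ := by
  have hgap := Las.gap h0 h1
  set W := Las.H2 (1 / 2 - Real.sqrt (δ * (1 - δ))) with hW
  set G := 1 - Las.H2 δ with hG
  obtain ⟨c, hc, n0, hn0⟩ := Las.las_lower h0 h1 (γ := (W - G) / 4) (by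
    have : 0 < W - G := by linarith
    linarith)
  have hlim := Exact.fin_tendsto Exact.inputs h0 h1
  have h2 : G + (W - G) / 8 ≤ Tensor.ell δ := by
    refine ge_of_tendsto hlim ?_
    have hsq : Tendsto (fun n : ℕ => c * Real.sqrt n) atTop atTop :=
      (tendsto_sqrt_atTop.comp tendsto_natCast_atTop_atTop).const_mul_atTop hc
    filter_upwards [eventually_ge_atTop n0, eventually_gt_atTop 0, hsq.eventually_ge_atTop 2]
      with n hn hnz hn2
    have hnpos : (0 : ℝ) < n := by exact_mod_cast hnz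
    have h3 := hn0 n hn 2 (by norm_num) (by exact_mod_cast hn2)
    have h4 := h3.trans (Las.las_le_lp (t := 2) le_rfl n ⌈δ * n⌉₊)
    have hpos : (0 : ℝ) < Impr.lpBound n ⌈δ * n⌉₊ :=
      lt_of_lt_of_le (Real.rpow_pos_of_pos (by norm_num) _) h4
    rw [← Real.le_logb_iff_rpow_le (by norm_num) hpos] at h4
    show G + (W - G) / 8 ≤ Real.logb 2 (Impr.lpBound n ⌈δ * n⌉₊) / n
    rw [le_div_iff₀ hnpos]
    refine le_trans (le_of_eq ?_) h4
    push_cast
    ring
  have : 0 < W - G := by linarith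
  linarith

end Pool.Agent.Lib.MP_0430e4_lc.Hier
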