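import Pool.Agent.Lib.MP_0430e4_lc.Hier.Asm
import Pool.Agent.Lib.MP_0430e4_lc.Exact.INP

/-!
# The exact exponent of the hierarchy
-/

set_option autoImplicit false

namespace Pool.Agent.Lib.MP_0430e4_lc.Hier

open Finset Filter Topology Real

theorem coef_mono {R δ δ' : ℝ} (h : δ ≤ δ') (hc : LPLOW.CoefBound R δ') : LPLOW.CoefBound R δ := by
  obtain ⟨C, ε, hC, hε, hb⟩ := hc
  refine ⟨C, ε, hC, hε, fun n b hodd hF k hk hkd => hb n b hodd hF k hk (hkd.trans ?_)⟩
  exact mul_le_mul_of_nonneg_right h (Nat.cast_nonneg n)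

theorem coef_of_ne {δ R : ℝ} (h0 : 0 < δ) (h1 : δ < 1 / 2) (hne : δ ≠ 1 / 2 - 1 / π)
    (hR : R < Tensor.ell δ * log 2) : LPLOW.CoefBound R δ := by
  have e : 2 / π = 2 * (1 / π) := by ring
  have hl2 : 0 < log 2 := log_pos (by norm_num)
  rcases lt_or_gt_of_ne hne with hlt | hgt
  · obtain ⟨t, ht, hts⟩ := Exact.exists_sII (s := 1 - 2 * δ) (by linarith) (by linarith)
    have h2 : (1 - Exact.sII t) / 2 = δ := by rw [hts]; ring
    have h3 := (Exact.fin_II Exact.inputs ht).1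
    rw [h2] at h3
    have h4 : R < log 2 - Exact.cval t := by
      rw [h3] at hR
      have : (1 - Exact.cval t / log 2) * log 2 = log 2 - Exact.cval t := by field_simp
      rwa [this] at hR
    have := LPLOW.coef_II ht h4
    rwa [h2] at this
  · obtain ⟨t, ht, hts⟩ := Exact.exists_sI (s := 1 - 2 * δ) (by linarith) (by linarith)
    have h2 : (1 - Exact.sI t) / 2 = δ := by rw [hts]; ring
    have h3 := (Exact.fin_I Exact.inputs ht).1
    rw [h2] at h3
    have h4 : R < Exact.cval t := by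
      rw [h3] at hR
      have : Exact.cval t / log 2 * log 2 = Exact.cval t := by field_simp
      rwa [this] at hR
    have := LPLOW.coef_I ht h4
    rwa [h2] at this

theorem coef_all {δ R : ℝ} (h0 : 0 < δ) (h1 : δ < 1 / 2) (hR : R < Tensor.ell δ * log 2) :
    LPLOW.CoefBound R δ := by
  by_cases hne : δ = 1 / 2 - 1 / π
  swap
  · exact coef_of_ne h0 h1 hne hR
  have h4 : Tendsto (fun x => Tensor.ell x * log 2) (𝓝[>] δ) (𝓝 (Tensor.ell δ * log 2)) :=
    ((Exact.ell_continuousAt h0).tendsto.mono_left nhdsWithin_le_nhds).mul_const _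
  obtain ⟨δ', h5, h6⟩ := ((h4.eventually_const_lt hR).and (Ioo_mem_nhdsGT h1)).exists
  refine coef_mono h6.1.le (coef_of_ne (h0.trans h6.1) h6.2 ?_ h5)
  rw [← hne]
  exact h6.1.ne'

/-- The exponent of the hierarchy at subexponential level is the exponent of Delsarte's linear
program. -/
theorem tendsto_sdp_ell {δ : ℝ} (h0 : 0 < δ) (h1 : δ < 1 / 2) {k : ℕ → ℕ} (hk : ∀ n, 3 ≤ k n)
    (hlog : Tendsto (fun n : ℕ => Real.log (k n) / n) atTop (𝓝 0)) :
    Tendsto (fun n : ℕ => Real.logb 2 (sdp (k n) n ⌈δ * n⌉₊) / n) atTop (𝓝 (Tensor.ell δ)) := by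
  have hl2 : 0 < log 2 := log_pos (by norm_num)
  have h2 := tendsto_sdp (L := Tensor.ell δ * log 2) h0 h1 (fun R hR => coef_all h0 h1 hR)
    (by
      rw [mul_div_cancel_right₀ _ hl2.ne']
      exact Exact.fin_tendsto Exact.inputs h0 h1) hk hlog
  rwa [mul_div_cancel_right₀ _ hl2.ne'] at h2

end Pool.Agent.Lib.MP_0430e4_lc.Hier
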