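import Pool.Agent.Lib.MP_0430e4_lc.Hier.Defs

/-!
# Lifting a bounded pair correlation to the hierarchy
-/

set_option autoImplicit false
set_option linter.unusedSectionVars false

namespace Pool.Agent.Lib.MP_0430e4_lc.Hier

open Finset

variable {V : Type*} [Fintype V] [DecidableEq V]

/-- entries of the conditioned moment matrix: inside `T`, outside `N` -/
def condM (y : Finset V → ℝ) (T N : Finset V) (a b : Option V) : ℝ :=
  ∑ N' ∈ N.powerset, (-1) ^ N'.card * y (T ∪ N' ∪ (a.toFinset ∪ b.toFinset))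

/-- the quadratic form of the conditioned moment matrix -/
def formM (y : Finset V → ℝ) (T N : Finset V) (f : Option V → ℝ) : ℝ :=
  ∑ a, ∑ b, f a * f b * condM y T N a b

/-- the lifted moments; `s` is the square root of the pair correlation -/
def ylift (q : ℝ) (s : V → V → ℝ) (S : Finset V) : ℝ :=
  q ^ S.card * ∏ e ∈ S.offDiag, s e.1 e.2

/-- conditional density at `u` -/
def aa (q : ℝ) (s : V → V → ℝ) (T : Finset V) (u : V) : ℝ := q * ∏ t ∈ T, s u t ^ 2

/-- normalised form -/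
def QQ (q : ℝ) (s : V → V → ℝ) (T : Finset V) (c : ℝ) (w : V → ℝ) : ℝ :=
  (c + ∑ u, aa q s T u * w u) ^ 2
    + ∑ u, ∑ v, (aa q s T u * w u) * (aa q s T v * w v) * (s u v ^ 2 - 1)
    + ∑ u, aa q s T u * w u ^ 2

variable {q : ℝ} {s : V → V → ℝ}

theorem ylift_empty : ylift q s (∅ : Finset V) = 1 := by simp [ylift]

theorem ylift_nonneg (hq : 0 ≤ q) (h0 : ∀ u v, 0 ≤ s u v) (S : Finset V) : 0 ≤ ylift q s S :=
  mul_nonneg (pow_nonneg hq _) (prod_nonneg fun _ _ => h0 _ _)

theorem ylift_insert (hs : ∀ u v, s u v = s v u) {T : Finset V} {u : V} (hu : u ∉ T) :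
    ylift q s (insert u T) = ylift q s T * aa q s T u := by
  unfold ylift aa
  rw [card_insert_of_notMem hu, offDiag_insert hu, prod_union, prod_union]
  · have h1 : ∏ e ∈ ({u} : Finset V) ×ˢ T, s e.1 e.2 = ∏ t ∈ T, s u t := by
      rw [prod_product]; simp
    have h2 : ∏ e ∈ T ×ˢ ({u} : Finset V), s e.1 e.2 = ∏ t ∈ T, s u t := by
      rw [prod_product]
      simp only [prod_singleton]
      exact prod_congr rfl fun t _ => hs t u
    rw [h1, h2, prod_pow]
    ring
  · rw [disjoint_left]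
    rintro ⟨x, y⟩ h1 h2
    simp only [mem_product, mem_singleton, mem_offDiag] at h1 h2
    exact hu (h2.1 ▸ h1.1)
  · rw [disjoint_left]
    rintro ⟨x, y⟩ h1 h2
    simp only [mem_product, mem_singleton, mem_offDiag, mem_union] at h1 h2
    rcases h1 with h1 | h1
    · exact hu (h2.2 ▸ h1.2.1)
    · exact hu (h1.1 ▸ h2.1)

theorem aa_mem (hd : ∀ u, s u u = 0) {T : Finset V} {u : V} (hu : u ∈ T) : aa q s T u = 0 := by
  unfold aa
  rw [prod_eq_zero hu (by rw [hd]; norm_num), mul_zero]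

theorem aa_insert {T : Finset V} {n : V} (hn : n ∉ T) (u : V) :
    aa q s (insert n T) u = aa q s T u * s u n ^ 2 := by
  unfold aa
  rw [prod_insert hn]
  ring

/-- one point added -/
theorem ylift_one (hs : ∀ u v, s u v = s v u) (hd : ∀ u, s u u = 0) (T : Finset V) (u : V) :
    ylift q s (T ∪ {u}) = ylift q s T * (aa q s T u + if u ∈ T then 1 else 0) := by
  by_cases hu : u ∈ T
  · rw [aa_mem hd hu, if_pos hu, union_eq_left.2 (singleton_subset_iff.2 hu)]
    ring
  · rw [if_neg hu, union_comm, ← insert_eq, ylift_insert hs hu]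
    ring

/-- two points added -/
theorem ylift_two (hs : ∀ u v, s u v = s v u) (hd : ∀ u, s u u = 0) (T : Finset V) (u v : V) :
    ylift q s (T ∪ {u} ∪ {v}) = ylift q s T * ((if u ∈ T then 1 else 0) * (if v ∈ T then 1 else 0)
      + (if u ∈ T then 1 else 0) * aa q s T v + aa q s T u * (if v ∈ T then 1 else 0)
      + aa q s T u * aa q s T v * s u v ^ 2 + if u = v then aa q s T u else 0) := by
  by_cases hu : u ∈ T
  · rw [aa_mem hd hu, if_pos hu, union_eq_left.2 (singleton_subset_iff.2 hu), ylift_one hs hd]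
    have h0 : (if u = v then (0 : ℝ) else 0) = 0 := by split_ifs <;> rfl
    rw [h0]
    ring
  · by_cases hv : v ∈ T
    · have h1 : v ∈ T ∪ {u} := mem_union_left _ hv
      have h2 : u ≠ v := fun h => hu (h ▸ hv)
      rw [union_eq_left.2 (singleton_subset_iff.2 h1), ylift_one hs hd, aa_mem hd hv, if_pos hv,
        if_neg hu, if_neg h2]
      ring
    · by_cases huv : u = v
      · subst huv
        have h1 : u ∈ T ∪ {u} := mem_union_right _ (mem_singleton_self u)
        rw [union_eq_left.2 (singleton_subset_iff.2 h1), ylift_one hs hd, if_neg hu, if_pos rfl,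
          hd u]
        ring
      · have h1 : v ∉ insert u T := by
          rw [mem_insert, not_or]
          exact ⟨fun h => huv h.symm, hv⟩
        have h2 : T ∪ {u} = insert u T := by rw [union_comm, ← insert_eq]
        have h3 : insert u T ∪ {v} = insert v (insert u T) := by rw [union_comm, ← insert_eq]
        rw [h2, h3, ylift_insert hs h1, ylift_insert hs hu, aa_insert hu, if_neg hu, if_neg hv,
          if_neg huv, hs v u]
        ring

/-- the unconditioned form -/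
theorem form_eq (hs : ∀ u v, s u v = s v u) (hd : ∀ u, s u u = 0) (T : Finset V)
    (f : Option V → ℝ) :
    ∑ a : Option V, ∑ b : Option V, f a * f b * ylift q s (T ∪ (a.toFinset ∪ b.toFinset))
      = ylift q s T * QQ q s T (f none + ∑ t ∈ T, f (some t)) (fun u => f (some u)) := by
  have h0 : ylift q s (T ∪ ((none : Option V).toFinset ∪ (none : Option V).toFinset))
      = ylift q s T := by simp
  have h1 : ∀ v : V, ylift q s (T ∪ ((none : Option V).toFinset ∪ (some v).toFinset))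
      = ylift q s T * (aa q s T v + if v ∈ T then 1 else 0) := by
    intro v
    rw [← ylift_one hs hd]; simp
  have h1' : ∀ v : V, ylift q s (T ∪ ((some v).toFinset ∪ (none : Option V).toFinset))
      = ylift q s T * (aa q s T v + if v ∈ T then 1 else 0) := by
    intro v
    rw [← ylift_one hs hd]; simp
  have h2 : ∀ u v : V, ylift q s (T ∪ ((some u).toFinset ∪ (some v).toFinset))
      = ylift q s T * ((if u ∈ T then 1 else 0) * (if v ∈ T then 1 else 0)
      + (if u ∈ T then 1 else 0) * aa q s T v + aa q s T u * (if v ∈ T then 1 else 0)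
      + aa q s T u * aa q s T v * s u v ^ 2 + if u = v then aa q s T u else 0) := by
    intro u v
    rw [← ylift_two hs hd, union_assoc]; simp
  simp only [Fintype.sum_option, h0, h1, h1', h2]
  have hT : ∀ w : V → ℝ, ∑ t ∈ T, w t = ∑ u, (if u ∈ T then w u else 0) := by
    intro w
    rw [← sum_filter]
    congr 1
    ext x
    simp
  rw [hT]
  set Y := ylift q s T
  set w : V → ℝ := fun u => f (some u) with hw
  set α := ∑ u, aa q s T u * w u with hα
  set β := ∑ u, (if u ∈ T then w u else 0) with hβ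
  set c0 := f none
  have e1 : ∑ v, c0 * f (some v) * (Y * (aa q s T v + if v ∈ T then 1 else 0))
      = Y * c0 * (α + β) := by
    rw [hα, hβ, ← sum_add_distrib, mul_sum]
    refine sum_congr rfl fun v _ => ?_
    by_cases hv : v ∈ T
    · simp [hv, hw]; ring
    · simp [hv, hw]; ring
  have e2 : ∀ u, ∑ v, f (some u) * f (some v) * (Y * ((if u ∈ T then 1 else 0)
        * (if v ∈ T then 1 else 0) + (if u ∈ T then 1 else 0) * aa q s T v
        + aa q s T u * (if v ∈ T then 1 else 0) + aa q s T u * aa q s T v * s u v ^ 2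
        + if u = v then aa q s T u else 0))
      = Y * ((if u ∈ T then w u else 0) * (β + α) + aa q s T u * w u * β
        + ∑ v, (aa q s T u * w u) * (aa q s T v * w v) * s u v ^ 2 + aa q s T u * w u ^ 2) := by
    intro u
    have e3 : aa q s T u * w u ^ 2 = ∑ v, (if u = v then aa q s T u * w u * w v else 0) := by
      rw [sum_ite_eq]
      simp
      ring
    have r1 : (if u ∈ T then w u else 0) * (β + α) = ∑ v, (if u ∈ T then w u else 0) *
        ((if v ∈ T then w v else 0) + aa q s T v * w v) := by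
      rw [hα, hβ, ← sum_add_distrib, mul_sum]
    have r2 : aa q s T u * w u * β = ∑ v, aa q s T u * w u * (if v ∈ T then w v else 0) := by
      rw [hβ, mul_sum]
    rw [e3, r1, r2, ← sum_add_distrib, ← sum_add_distrib, ← sum_add_distrib, mul_sum]
    refine sum_congr rfl fun v _ => ?_
    have hu' : f (some u) = w u := rfl
    have hv' : f (some v) = w v := rfl
    rw [hu', hv']
    by_cases hu : u ∈ T <;> by_cases hv : v ∈ T <;> by_cases huv : u = v <;>
      simp only [hu, hv, huv, if_true, if_false] <;> ring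
  have e4 : ∑ u, f (some u) * c0 * (Y * (aa q s T u + if u ∈ T then 1 else 0))
      = Y * c0 * (α + β) := by
    rw [← e1]
    exact sum_congr rfl fun u _ => by ring
  rw [e1, sum_add_distrib, e4, sum_congr rfl fun u _ => e2 u]
  rw [← mul_sum, sum_add_distrib, sum_add_distrib, sum_add_distrib, ← sum_mul, ← sum_mul, ← hα,
    ← hβ]
  have e5 : ∑ u, ∑ v, (aa q s T u * w u) * (aa q s T v * w v) * s u v ^ 2
      = ∑ u, ∑ v, (aa q s T u * w u) * (aa q s T v * w v) * (s u v ^ 2 - 1) + α ^ 2 := by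
    have : α ^ 2 = ∑ u, ∑ v, (aa q s T u * w u) * (aa q s T v * w v) := by
      rw [pow_two, hα, sum_mul_sum]
    rw [this, ← sum_add_distrib]
    refine sum_congr rfl fun u _ => ?_
    rw [← sum_add_distrib]
    exact sum_congr rfl fun v _ => by ring
  rw [e5]
  unfold QQ
  rw [← hα]
  ring

/-- the bilinear bound that follows from the bound of the quadratic form -/
theorem row_sq_le {G : V → V → ℝ} (hG : ∀ u v, G u v = G v u) {R : ℝ} (hR : 0 < R)
    (hb : ∀ f : V → ℝ, |∑ u, ∑ v, f u * f v * G u v| ≤ R * ∑ u, f u ^ 2) (n : V) :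
    ∑ u, G u n ^ 2 ≤ R ^ 2 := by
  set r := ∑ u, G u n ^ 2 with hr
  have hr0 : 0 ≤ r := sum_nonneg fun u _ => sq_nonneg _
  -- test with `x u = G u n + t δ_n`, `t = ± R`
  have key : ∀ t : ℝ, ∑ u, ∑ v, (G u n + if u = n then t else 0)
      * (G v n + if v = n then t else 0) * G u v
      = (∑ u, ∑ v, G u n * G v n * G u v) + 2 * t * r + t ^ 2 * G n n := by
    intro t
    have h1 : ∀ u v, (G u n + if u = n then t else 0) * (G v n + if v = n then t else 0) * G u v
        = G u n * G v n * G u v + (if v = n then t * (G u n * G u v) else 0)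
          + (if u = n then t * (G v n * G u v) else 0)
          + (if u = n then (if v = n then t ^ 2 * G u v else 0) else 0) := by
      intro u v
      by_cases hu : u = n <;> by_cases hv : v = n <;> simp [hu, hv] <;> ring
    simp only [h1, sum_add_distrib]
    have h2 : ∑ u, ∑ v, (if v = n then t * (G u n * G u v) else 0) = t * r := by
      simp only [sum_ite_eq', mem_univ, if_true]
      rw [hr, mul_sum]
      exact sum_congr rfl fun u _ => by ring
    have h3 : ∑ u, ∑ v, (if u = n then t * (G v n * G u v) else 0) = t * r := by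
      rw [sum_comm]
      simp only [sum_ite_eq', mem_univ, if_true]
      rw [hr, mul_sum]
      exact sum_congr rfl fun u _ => by rw [hG n u]; ring
    have h4 : ∑ u, ∑ v, (if u = n then (if v = n then t ^ 2 * G u v else 0) else 0)
        = t ^ 2 * G n n := by
      rw [sum_eq_single n]
      · simp
      · intro u _ hu; simp [hu]
      · intro h; exact absurd (mem_univ n) h
    rw [h2, h3, h4]
    ring
  have key2 : ∀ t : ℝ, ∑ u, (G u n + if u = n then t else 0) ^ 2 = r + 2 * t * G n n + t ^ 2 := by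
    intro t
    have h1 : ∀ u, (G u n + if u = n then t else 0) ^ 2
        = G u n ^ 2 + (if u = n then 2 * t * G u n + t ^ 2 else 0) := by
      intro u
      by_cases hu : u = n
      · simp [hu]; ring
      · simp [hu]
    simp only [h1, sum_add_distrib, sum_ite_eq', mem_univ, if_true]
    ring
  have a1 := (abs_le.1 (hb (fun u => G u n + if u = n then R else 0))).2
  have a2 := (abs_le.1 (hb (fun u => G u n + if u = n then -R else 0))).1
  rw [key, key2] at a1 a2
  -- a1: S + 2 R r + R² g ≤ R (r + 2 R g + R²); a2: -R(r - 2 R g + R²) ≤ S - 2 R r + R² g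
  have h5 : 4 * R * r ≤ 2 * R * (r + R ^ 2) := by nlinarith [a1, a2]
  have h6 : 2 * r ≤ r + R ^ 2 := by
    by_contra h
    push Not at h
    nlinarith [mul_lt_mul_of_pos_left h (by linarith : (0 : ℝ) < 2 * R)]
  linarith

section analysis

variable {p A Γ : ℝ}

/-- (i) -/
theorem QQ_ge (hp : 0 < p)
    (hb : ∀ f : V → ℝ, |∑ u, ∑ v, f u * f v * (s u v ^ 2 - 1)| ≤ (1 / p) * ∑ u, f u ^ 2)
    {T : Finset V} (h0 : ∀ u, 0 ≤ aa q s T u) (hA : ∀ u, aa q s T u ≤ A) (hAp : A ≤ p / 2)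
    (c : ℝ) (w : V → ℝ) :
    (c + ∑ u, aa q s T u * w u) ^ 2 + 1 / 2 * ∑ u, aa q s T u * w u ^ 2 ≤ QQ q s T c w := by
  unfold QQ
  have h1 := (abs_le.1 (hb (fun u => aa q s T u * w u))).1
  have h2 : (1 / p) * ∑ u, (aa q s T u * w u) ^ 2 ≤ 1 / 2 * ∑ u, aa q s T u * w u ^ 2 := by
    rw [mul_sum, mul_sum]
    refine sum_le_sum fun u _ => ?_
    have h3 : aa q s T u * (aa q s T u * w u ^ 2) ≤ p / 2 * (aa q s T u * w u ^ 2) :=
      mul_le_mul_of_nonneg_right ((hA u).trans hAp) (mul_nonneg (h0 u) (sq_nonneg _))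
    have h4 : 1 / p * (aa q s T u * w u) ^ 2 = (1 / p) * (aa q s T u * (aa q s T u * w u ^ 2)) := by
      ring
    rw [h4]
    calc (1 / p) * (aa q s T u * (aa q s T u * w u ^ 2))
        ≤ (1 / p) * (p / 2 * (aa q s T u * w u ^ 2)) :=
          mul_le_mul_of_nonneg_left h3 (by positivity)
      _ = 1 / 2 * (aa q s T u * w u ^ 2) := by field_simp
  linarith

theorem QQ_le (hp : 0 < p)
    (hb : ∀ f : V → ℝ, |∑ u, ∑ v, f u * f v * (s u v ^ 2 - 1)| ≤ (1 / p) * ∑ u, f u ^ 2)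
    {T : Finset V} (h0 : ∀ u, 0 ≤ aa q s T u) (hA : ∀ u, aa q s T u ≤ A) (hAp : A ≤ p / 2)
    (c : ℝ) (w : V → ℝ) :
    QQ q s T c w ≤ (c + ∑ u, aa q s T u * w u) ^ 2 + 3 / 2 * ∑ u, aa q s T u * w u ^ 2 := by
  unfold QQ
  have h1 := (abs_le.1 (hb (fun u => aa q s T u * w u))).2
  have h2 : (1 / p) * ∑ u, (aa q s T u * w u) ^ 2 ≤ 1 / 2 * ∑ u, aa q s T u * w u ^ 2 := by
    rw [mul_sum, mul_sum]
    refine sum_le_sum fun u _ => ?_
    have h3 : aa q s T u * (aa q s T u * w u ^ 2) ≤ p / 2 * (aa q s T u * w u ^ 2) :=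
      mul_le_mul_of_nonneg_right ((hA u).trans hAp) (mul_nonneg (h0 u) (sq_nonneg _))
    have h4 : 1 / p * (aa q s T u * w u) ^ 2 = (1 / p) * (aa q s T u * (aa q s T u * w u ^ 2)) := by
      ring
    rw [h4]
    calc (1 / p) * (aa q s T u * (aa q s T u * w u ^ 2))
        ≤ (1 / p) * (p / 2 * (aa q s T u * w u ^ 2)) :=
          mul_le_mul_of_nonneg_left h3 (by positivity)
      _ = 1 / 2 * (aa q s T u * w u ^ 2) := by field_simp
  linarith

/-- (ii) -/
theorem QQ_step (hs : ∀ u v, s u v = s v u) (hp : 0 < p) (hΓ1 : 1 ≤ Γ)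
    (hΓ : ∀ u v, s u v ^ 2 ≤ Γ)
    (hb : ∀ f : V → ℝ, |∑ u, ∑ v, f u * f v * (s u v ^ 2 - 1)| ≤ (1 / p) * ∑ u, f u ^ 2)
    {T : Finset V} {n : V} (hn : n ∉ T) (h0 : ∀ u, 0 ≤ aa q s T u) (hA : ∀ u, aa q s T u ≤ A)
    (hA' : ∀ u, aa q s (insert n T) u ≤ A) (hAp : A ≤ p / 2) (hA0 : 0 ≤ A)
    (c : ℝ) (w : V → ℝ) :
    aa q s T n * QQ q s (insert n T) c w ≤ (4 * A ^ 2 / p ^ 2 + 3 * Γ * A + 2 * A) * QQ q s T c w := by
  have h0' : ∀ u, 0 ≤ aa q s (insert n T) u := by
    intro u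
    rw [aa_insert hn]
    exact mul_nonneg (h0 u) (sq_nonneg _)
  have hup := QQ_le hp hb h0' hA' hAp c w
  have hlo := QQ_ge hp hb h0 hA hAp c w
  set X := c + ∑ u, aa q s T u * w u with hX
  set Z := ∑ u, aa q s T u * w u ^ 2 with hZ
  have hZ0 : 0 ≤ Z := sum_nonneg fun u _ => mul_nonneg (h0 u) (sq_nonneg _)
  set D := ∑ u, aa q s T u * w u * (s u n ^ 2 - 1) with hD
  have e1 : c + ∑ u, aa q s (insert n T) u * w u = X + D := by
    rw [hX, hD, add_assoc, ← sum_add_distrib]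
    congr 1
    refine sum_congr rfl fun u _ => ?_
    rw [aa_insert hn]
    ring
  have e2 : ∑ u, aa q s (insert n T) u * w u ^ 2 ≤ Γ * Z := by
    rw [hZ, mul_sum]
    refine sum_le_sum fun u _ => ?_
    rw [aa_insert hn]
    have h3 : 0 ≤ aa q s T u * w u ^ 2 := mul_nonneg (h0 u) (sq_nonneg _)
    calc aa q s T u * s u n ^ 2 * w u ^ 2 = s u n ^ 2 * (aa q s T u * w u ^ 2) := by ring
      _ ≤ Γ * (aa q s T u * w u ^ 2) := mul_le_mul_of_nonneg_right (hΓ u n) h3
  have e3 : D ^ 2 ≤ Z * (A * (1 / p) ^ 2) := by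
    have hcs : D ^ 2 ≤ (∑ u, aa q s T u * w u ^ 2) * ∑ u, aa q s T u * (s u n ^ 2 - 1) ^ 2 := by
      have h4 := sum_mul_sq_le_sq_mul_sq univ (fun u => Real.sqrt (aa q s T u) * w u)
        (fun u => Real.sqrt (aa q s T u) * (s u n ^ 2 - 1))
      have h5 : ∀ u, Real.sqrt (aa q s T u) * w u * (Real.sqrt (aa q s T u) * (s u n ^ 2 - 1))
          = aa q s T u * w u * (s u n ^ 2 - 1) := by
        intro u
        calc Real.sqrt (aa q s T u) * w u * (Real.sqrt (aa q s T u) * (s u n ^ 2 - 1))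
            = (Real.sqrt (aa q s T u) * Real.sqrt (aa q s T u)) * w u * (s u n ^ 2 - 1) := by ring
          _ = _ := by rw [Real.mul_self_sqrt (h0 u)]
      have h6 : ∀ u, (Real.sqrt (aa q s T u) * w u) ^ 2 = aa q s T u * w u ^ 2 := by
        intro u; rw [mul_pow, Real.sq_sqrt (h0 u)]
      have h7 : ∀ u, (Real.sqrt (aa q s T u) * (s u n ^ 2 - 1)) ^ 2
          = aa q s T u * (s u n ^ 2 - 1) ^ 2 := by
        intro u; rw [mul_pow, Real.sq_sqrt (h0 u)]
      simp only [h5, h6, h7] at h4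
      exact h4
    have hrow : ∑ u, (s u n ^ 2 - 1) ^ 2 ≤ (1 / p) ^ 2 :=
      row_sq_le (G := fun u v => s u v ^ 2 - 1) (fun u v => by rw [hs u v]) (by positivity) hb n
    have h8 : ∑ u, aa q s T u * (s u n ^ 2 - 1) ^ 2 ≤ A * (1 / p) ^ 2 := by
      calc ∑ u, aa q s T u * (s u n ^ 2 - 1) ^ 2 ≤ ∑ u, A * (s u n ^ 2 - 1) ^ 2 :=
            sum_le_sum fun u _ => mul_le_mul_of_nonneg_right (hA u) (sq_nonneg _)
        _ = A * ∑ u, (s u n ^ 2 - 1) ^ 2 := by rw [mul_sum]
        _ ≤ A * (1 / p) ^ 2 := mul_le_mul_of_nonneg_left hrow hA0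
    exact hcs.trans (mul_le_mul_of_nonneg_left h8 hZ0)
  rw [e1] at hup
  have hQ0 : 0 ≤ QQ q s T c w := le_trans (by positivity) hlo
  have h9 : QQ q s (insert n T) c w ≤ 2 * X ^ 2 + (2 * (A * (1 / p) ^ 2) + 3 / 2 * Γ) * Z := by
    have : (X + D) ^ 2 ≤ 2 * X ^ 2 + 2 * D ^ 2 := by nlinarith [sq_nonneg (X - D)]
    nlinarith [hup, e2, e3]
  have h10 : 0 ≤ 2 * X ^ 2 + (2 * (A * (1 / p) ^ 2) + 3 / 2 * Γ) * Z := by positivity
  calc aa q s T n * QQ q s (insert n T) c w
      ≤ aa q s T n * (2 * X ^ 2 + (2 * (A * (1 / p) ^ 2) + 3 / 2 * Γ) * Z) :=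
        mul_le_mul_of_nonneg_left h9 (h0 n)
    _ ≤ A * (2 * X ^ 2 + (2 * (A * (1 / p) ^ 2) + 3 / 2 * Γ) * Z) :=
        mul_le_mul_of_nonneg_right (hA n) h10
    _ ≤ (4 * A ^ 2 / p ^ 2 + 3 * Γ * A + 2 * A) * (X ^ 2 + 1 / 2 * Z) := by
        have e5 : A * (2 * X ^ 2 + (2 * (A * (1 / p) ^ 2) + 3 / 2 * Γ) * Z)
            = 2 * A * X ^ 2 + (4 * A ^ 2 / p ^ 2 + 3 * Γ * A) * (1 / 2 * Z) := by
          field_simp
          ring
        rw [e5]
        have h11 : 0 ≤ (4 * A ^ 2 / p ^ 2 + 3 * Γ * A) * X ^ 2 := by positivity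
        have h12 : 0 ≤ 2 * A * (1 / 2 * Z) := by positivity
        nlinarith
    _ ≤ (4 * A ^ 2 / p ^ 2 + 3 * Γ * A + 2 * A) * QQ q s T c w :=
        mul_le_mul_of_nonneg_left hlo (by positivity)

theorem aa_nonneg (hq : 0 ≤ q) (T : Finset V) (u : V) : 0 ≤ aa q s T u :=
  mul_nonneg hq (prod_nonneg fun _ _ => sq_nonneg _)

theorem aa_le (hq : 0 ≤ q) (hΓ1 : 1 ≤ Γ) (hΓ : ∀ u v, s u v ^ 2 ≤ Γ) {k : ℕ} {T : Finset V}
    (hT : T.card ≤ k) (u : V) : aa q s T u ≤ q * Γ ^ k := by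
  unfold aa
  refine mul_le_mul_of_nonneg_left ?_ hq
  calc ∏ t ∈ T, s u t ^ 2 ≤ ∏ _t ∈ T, Γ := prod_le_prod (fun _ _ => sq_nonneg _) fun t _ => hΓ u t
    _ = Γ ^ T.card := by rw [prod_const]
    _ ≤ Γ ^ k := pow_le_pow_right₀ hΓ1 hT

/-- (iii), iteration -/
theorem iter (hs : ∀ u v, s u v = s v u) (hs0 : ∀ u v, 0 ≤ s u v) (hp : 0 < p) (hΓ1 : 1 ≤ Γ)
    (hΓ : ∀ u v, s u v ^ 2 ≤ Γ)
    (hb : ∀ f : V → ℝ, |∑ u, ∑ v, f u * f v * (s u v ^ 2 - 1)| ≤ (1 / p) * ∑ u, f u ^ 2)
    {k : ℕ} (hq : 0 ≤ q) (hAp : q * Γ ^ k ≤ p / 2) {θ : ℝ}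
    (hθ : 4 * (q * Γ ^ k) ^ 2 / p ^ 2 + 3 * Γ * (q * Γ ^ k) + 2 * (q * Γ ^ k) ≤ θ)
    (T : Finset V) (N : Finset V) (c : ℝ) (w : V → ℝ) :
    Disjoint T N → T.card + N.card ≤ k →
      0 ≤ ylift q s (T ∪ N) * QQ q s (T ∪ N) c w ∧
      ylift q s (T ∪ N) * QQ q s (T ∪ N) c w ≤ θ ^ N.card * (ylift q s T * QQ q s T c w) := by
  have hA0 : 0 ≤ q * Γ ^ k := mul_nonneg hq (pow_nonneg (by linarith) _)
  have hpos : ∀ S : Finset V, S.card ≤ k → 0 ≤ QQ q s S c w := by
    intro S hS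
    have h1 := QQ_ge hp hb (aa_nonneg (s := s) hq S) (aa_le hq hΓ1 hΓ hS) hAp c w
    have h2 : 0 ≤ ∑ u, aa q s S u * w u ^ 2 :=
      sum_nonneg fun u _ => mul_nonneg (aa_nonneg hq S u) (sq_nonneg _)
    exact le_trans (by positivity) h1
  induction N using Finset.induction_on with
  | empty =>
    intro _ hc
    rw [union_empty, card_empty, pow_zero, one_mul]
    exact ⟨mul_nonneg (ylift_nonneg hq hs0 T) (hpos T (by simpa using hc)), le_rfl⟩
  | insert n N hn ih =>
    intro hdis hc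
    rw [disjoint_insert_right] at hdis
    rw [card_insert_of_notMem hn] at hc ⊢
    obtain ⟨ih1, ih2⟩ := ih hdis.2 (by omega)
    have hnS : n ∉ T ∪ N := by
      rw [mem_union, not_or]
      exact ⟨hdis.1, hn⟩
    have hcard : (T ∪ N).card + 1 ≤ k := by
      have := card_union_le T N
      omega
    have hcard2 : (insert n (T ∪ N)).card ≤ k := by
      rw [card_insert_of_notMem hnS]; exact hcard
    rw [union_insert, ylift_insert hs hnS]
    have hstep := QQ_step hs hp hΓ1 hΓ hb hnS (aa_nonneg (s := s) hq _)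
      (aa_le hq hΓ1 hΓ (by omega : (T ∪ N).card ≤ k)) (aa_le hq hΓ1 hΓ hcard2) hAp hA0 c w
    have hY := ylift_nonneg hq hs0 (T ∪ N)
    have hQ := hpos (T ∪ N) (by omega)
    have hθ0 : 0 ≤ θ := le_trans (by positivity) hθ
    refine ⟨mul_nonneg (mul_nonneg hY (aa_nonneg hq _ _)) (hpos _ hcard2), ?_⟩
    calc ylift q s (T ∪ N) * aa q s (T ∪ N) n * QQ q s (insert n (T ∪ N)) c w
        = ylift q s (T ∪ N) * (aa q s (T ∪ N) n * QQ q s (insert n (T ∪ N)) c w) := by ring
      _ ≤ ylift q s (T ∪ N) * (θ * QQ q s (T ∪ N) c w) := by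
          refine mul_le_mul_of_nonneg_left (hstep.trans ?_) hY
          exact mul_le_mul_of_nonneg_right hθ hQ
      _ = θ * (ylift q s (T ∪ N) * QQ q s (T ∪ N) c w) := by ring
      _ ≤ θ * (θ ^ N.card * (ylift q s T * QQ q s T c w)) := mul_le_mul_of_nonneg_left ih2 hθ0
      _ = θ ^ (N.card + 1) * (ylift q s T * QQ q s T c w) := by ring

end analysis

/-- the rows of `N` vanish -/
theorem condM_row (y : Finset V → ℝ) (T N : Finset V) {n : V} (hn : n ∈ N) (b : Option V) :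
    condM y T N (some n) b = 0 := by
  unfold condM
  obtain ⟨M, hM, rfl⟩ : ∃ M, n ∉ M ∧ N = insert n M :=
    ⟨N.erase n, notMem_erase n N, (insert_erase hn).symm⟩
  rw [sum_powerset_insert hM, ← sum_add_distrib]
  refine sum_eq_zero fun S hS => ?_
  have hnS : n ∉ S := fun h => hM (mem_powerset.1 hS h)
  rw [card_insert_of_notMem hnS, pow_succ]
  have h1 : T ∪ insert n S ∪ ((some n).toFinset ∪ b.toFinset)
      = T ∪ S ∪ ((some n).toFinset ∪ b.toFinset) := by
    ext x
    simp only [mem_union, mem_insert, Option.mem_toFinset, Option.mem_def, Option.some.injEq]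
    constructor
    · rintro ((h | h | h) | h | h)
      · exact Or.inl (Or.inl h)
      · exact Or.inr (Or.inl h.symm)
      · exact Or.inl (Or.inr h)
      · exact Or.inr (Or.inl h)
      · exact Or.inr (Or.inr h)
    · rintro ((h | h) | h | h)
      · exact Or.inl (Or.inl h)
      · exact Or.inl (Or.inr (Or.inr h))
      · exact Or.inr (Or.inl h)
      · exact Or.inr (Or.inr h)
  rw [h1]
  ring

theorem condM_symm (y : Finset V → ℝ) (T N : Finset V) (a b : Option V) :
    condM y T N a b = condM y T N b a := by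
  unfold condM
  refine sum_congr rfl fun S _ => ?_
  rw [union_comm a.toFinset]

/-- one may put `0` on the rows of `N` -/
theorem formM_restrict (y : Finset V → ℝ) (T N : Finset V) (f : Option V → ℝ) :
    formM y T N f = formM y T N (fun a => if ∃ n ∈ N, a = some n then 0 else f a) := by
  unfold formM
  refine sum_congr rfl fun a _ => sum_congr rfl fun b _ => ?_
  by_cases ha : ∃ n ∈ N, a = some n
  · obtain ⟨n, hn, rfl⟩ := ha
    rw [condM_row y T N hn]
    ring
  · by_cases hb : ∃ n ∈ N, b = some n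
    · obtain ⟨n, hn, rfl⟩ := hb
      rw [condM_symm, condM_row y T N hn]
      ring
    · simp only [if_neg ha, if_neg hb]

theorem formM_eq (y : Finset V → ℝ) (T N : Finset V) (f : Option V → ℝ) :
    formM y T N f = ∑ N' ∈ N.powerset, (-1) ^ N'.card *
      ∑ a : Option V, ∑ b : Option V, f a * f b * y (T ∪ N' ∪ (a.toFinset ∪ b.toFinset)) := by
  unfold formM condM
  have h : ∀ a : Option V, ∑ b : Option V, f a * f b * (∑ N' ∈ N.powerset,
      (-1) ^ N'.card * y (T ∪ N' ∪ (a.toFinset ∪ b.toFinset)))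
      = ∑ N' ∈ N.powerset, (-1) ^ N'.card * ∑ b : Option V,
        f a * f b * y (T ∪ N' ∪ (a.toFinset ∪ b.toFinset)) := by
    intro a
    simp only [mul_sum]
    rw [sum_comm]
    exact sum_congr rfl fun _ _ => sum_congr rfl fun _ _ => by ring
  rw [sum_congr rfl fun a _ => h a, sum_comm]
  exact sum_congr rfl fun _ _ => by rw [← mul_sum]

/-- **Lemma L** -/
theorem isPseudo_ylift {p Γ : ℝ} {k : ℕ} (hk : 1 ≤ k)
    (hs : ∀ u v, s u v = s v u) (hd : ∀ u, s u u = 0) (hs0 : ∀ u v, 0 ≤ s u v)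
    (hp : 0 < p) (hp1 : p ≤ 1) (hΓ1 : 1 ≤ Γ) (hΓ2 : Γ ≤ 2) (hΓ : ∀ u v, s u v ^ 2 ≤ Γ)
    (hb : ∀ f : V → ℝ, |∑ u, ∑ v, f u * f v * (s u v ^ 2 - 1)| ≤ (1 / p) * ∑ u, f u ^ 2)
    (hq : 0 ≤ q) (hqk : q * Γ ^ k = p / (40 * k)) :
    IsPseudo (k + 2) (ylift q s) := by
  have hk1 : (1 : ℝ) ≤ k := by exact_mod_cast hk
  have hA : q * Γ ^ k ≤ p / 2 := by
    rw [hqk]
    apply div_le_div_of_nonneg_left hp.le (by norm_num)
    linarith
  have hθ : 4 * (q * Γ ^ k) ^ 2 / p ^ 2 + 3 * Γ * (q * Γ ^ k) + 2 * (q * Γ ^ k)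
      ≤ 1 / (2 * k) := by
    rw [hqk]
    have hk0 : (0 : ℝ) < k := by linarith
    have e1 : 4 * (p / (40 * (k : ℝ))) ^ 2 / p ^ 2 = 1 / (400 * (k : ℝ) ^ 2) := by
      field_simp
      norm_num
    have e2 : 1 / (400 * (k : ℝ) ^ 2) ≤ 1 / (400 * (k : ℝ)) := by
      apply one_div_le_one_div_of_le (by positivity)
      nlinarith
    have e3 : 3 * Γ * (p / (40 * (k : ℝ))) ≤ 6 / (40 * (k : ℝ)) := by
      rw [mul_div_assoc']
      apply div_le_div_of_nonneg_right _ (by positivity)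
      nlinarith
    have e4 : 2 * (p / (40 * (k : ℝ))) ≤ 2 / (40 * (k : ℝ)) := by
      rw [mul_div_assoc']
      apply div_le_div_of_nonneg_right _ (by positivity)
      linarith
    rw [e1]
    have e5 : 1 / (400 * (k : ℝ)) + 6 / (40 * (k : ℝ)) + 2 / (40 * (k : ℝ)) ≤ 1 / (2 * k) := by
      have : 1 / (400 * (k : ℝ)) + 6 / (40 * (k : ℝ)) + 2 / (40 * (k : ℝ))
          = (81 / 400) * (1 / (k : ℝ)) := by field_simp; norm_num
      rw [this]
      have h2 : 1 / (2 * (k : ℝ)) = (1 / 2) * (1 / (k : ℝ)) := by field_simp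
      rw [h2]
      have : 0 < 1 / (k : ℝ) := by positivity
      nlinarith
    linarith
  refine ⟨ylift_empty, ?_⟩
  · intro T N hTN hcard f
    have hM : ∑ a, ∑ b, f a * f b * condMat (ylift q s) T N a b = formM (ylift q s) T N f := by
      unfold formM condM condMat
      simp only [union_assoc]
    rw [hM, formM_restrict]
    set f' : Option V → ℝ := fun a => if ∃ n ∈ N, a = some n then 0 else f a with hf'
    set w : V → ℝ := fun u => f' (some u) with hw
    have hwN : ∀ n ∈ N, w n = 0 := by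
      intro n hn
      rw [hw, hf']
      exact if_pos ⟨n, hn, rfl⟩
    rw [formM_eq]
    set c := f' none + ∑ t ∈ T, w t with hc
    have h1 : ∀ N' ∈ N.powerset, ∑ a : Option V, ∑ b : Option V,
        f' a * f' b * ylift q s (T ∪ N' ∪ (a.toFinset ∪ b.toFinset))
        = ylift q s (T ∪ N') * QQ q s (T ∪ N') c w := by
      intro N' hN'
      rw [form_eq hs hd]
      have hsub := mem_powerset.1 hN'
      have hdis : Disjoint T N' := disjoint_of_subset_right hsub hTN
      rw [sum_union hdis]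
      have h0 : ∑ t ∈ N', f' (some t) = 0 := sum_eq_zero fun t ht => hwN t (hsub ht)
      rw [h0, add_zero]
    rw [sum_congr rfl fun N' hN' => by rw [h1 N' hN']]
    have hit : ∀ N' ∈ N.powerset, 0 ≤ ylift q s (T ∪ N') * QQ q s (T ∪ N') c w ∧
        ylift q s (T ∪ N') * QQ q s (T ∪ N') c w
          ≤ (1 / (2 * (k : ℝ))) ^ N'.card * (ylift q s T * QQ q s T c w) := by
      intro N' hN'
      have hsub := mem_powerset.1 hN'
      have hle := card_le_card hsub
      exact iter hs hs0 hp hΓ1 hΓ hb hq hA hθ T N' c w (disjoint_of_subset_right hsub hTN)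
        (by omega)
    set X := ylift q s T * QQ q s T c w with hX
    have hX0 : 0 ≤ X := by
      have := (hit ∅ (empty_mem_powerset N)).1
      rwa [union_empty] at this
    have hterm : ∀ N' ∈ N.powerset, (if N' = ∅ then 2 * X else 0)
        - (1 / (2 * (k : ℝ))) ^ N'.card * X
        ≤ (-1) ^ N'.card * (ylift q s (T ∪ N') * QQ q s (T ∪ N') c w) := by
      intro N' hN'
      by_cases hem : N' = ∅
      · subst hem
        rw [union_empty, card_empty, pow_zero, pow_zero, if_pos rfl, ← hX]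
        linarith
      · rw [if_neg hem]
        obtain ⟨ha, hb'⟩ := hit N' hN'
        rcases neg_one_pow_eq_or ℝ N'.card with h | h
        · rw [h]
          have : 0 ≤ (1 / (2 * (k : ℝ))) ^ N'.card * X := by positivity
          linarith
        · rw [h]
          linarith
    refine le_trans ?_ (sum_le_sum hterm)
    rw [sum_sub_distrib, sum_ite_eq', if_pos (empty_mem_powerset N), ← sum_mul]
    have hpow : ∑ N' ∈ N.powerset, (1 / (2 * (k : ℝ))) ^ N'.card
        = (1 / (2 * (k : ℝ)) + 1) ^ N.card := by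
      rw [← sum_pow_mul_eq_add_pow]
      exact sum_congr rfl fun _ _ => by rw [one_pow, mul_one]
    rw [hpow]
    have h2 : (1 / (2 * (k : ℝ)) + 1) ^ N.card ≤ 2 := by
      have h3 : (1 / (2 * (k : ℝ)) + 1) ^ N.card ≤ (1 / (2 * (k : ℝ)) + 1) ^ k := by
        apply pow_le_pow_right₀
        · have : 0 < 1 / (2 * (k : ℝ)) := by positivity
          linarith
        · omega
      have h4 : (1 / (2 * (k : ℝ)) + 1) ^ k ≤ Real.exp (1 / 2) := by
        have h5 : 1 / (2 * (k : ℝ)) + 1 ≤ Real.exp (1 / (2 * (k : ℝ))) := Real.add_one_le_exp _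
        calc (1 / (2 * (k : ℝ)) + 1) ^ k ≤ Real.exp (1 / (2 * (k : ℝ))) ^ k :=
              pow_le_pow_left₀ (by positivity) h5 k
          _ = Real.exp (k * (1 / (2 * (k : ℝ)))) := by rw [← Real.exp_nat_mul]
          _ = Real.exp (1 / 2) := by
              congr 1
              have : (k : ℝ) ≠ 0 := by positivity
              field_simp
      have h6 : Real.exp (1 / 2) ≤ 2 := by
        have h7 : Real.exp (1 / 2) ^ 2 = Real.exp 1 := by
          rw [← Real.exp_nat_mul]; norm_num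
        have h8 := Real.exp_one_lt_d9
        by_contra h9
        push Not at h9
        nlinarith
      linarith
    nlinarith

theorem ylift_singleton (u : V) : ylift q s {u} = q := by
  simp [ylift]

theorem ylift_zero {S : Finset V} (h : ∃ u ∈ S, ∃ v ∈ S, u ≠ v ∧ s u v = 0) :
    ylift q s S = 0 := by
  obtain ⟨u, hu, v, hv, h1, h2⟩ := h
  unfold ylift
  rw [prod_eq_zero (i := (u, v)) (mem_offDiag.2 ⟨hu, hv, h1⟩) h2, mul_zero]

/-- **Lemma L**, in terms of the pair correlation `g` (level `k + 2`) -/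
theorem lift_two {p Gam : ℝ} (hp : 0 < p) (hp1 : p ≤ 1) (hG : 1 ≤ Gam) (hG2 : Gam ≤ 2)
    {g : V → V → ℝ} (hs : ∀ u v, g u v = g v u) (h0 : ∀ u, g u u = 0) (hg0 : ∀ u v, 0 ≤ g u v)
    (hgG : ∀ u v, g u v ≤ Gam)
    (hop : ∀ f : V → ℝ, |∑ u, ∑ v, f u * f v * (g u v - 1)| ≤ (∑ u, f u ^ 2) / p)
    {k : ℕ} (hk : 1 ≤ k) :
    ∃ y : Finset V → ℝ, IsPseudo (k + 2) y ∧ (∀ x, y {x} = p / (40 * k * Gam ^ k)) ∧
      (∀ S : Finset V, (∃ u ∈ S, ∃ v ∈ S, u ≠ v ∧ g u v = 0) → y S = 0) ∧ ∀ S, 0 ≤ y S := by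
  have hΓ0 : 0 < Gam := by linarith
  have hk0 : (0 : ℝ) < k := by exact_mod_cast hk
  have hsq : ∀ u v, Real.sqrt (g u v) ^ 2 = g u v := fun u v => Real.sq_sqrt (hg0 u v)
  refine ⟨ylift (p / (40 * k * Gam ^ k)) (fun u v => Real.sqrt (g u v)), ?_, ?_, ?_, ?_⟩
  · refine isPseudo_ylift (p := p) (Γ := Gam) hk (fun u v => by rw [hs u v]) (fun u => by
      rw [h0 u, Real.sqrt_zero]) (fun u v => Real.sqrt_nonneg _) hp hp1 hG hG2
      (fun u v => by rw [hsq]; exact hgG u v) ?_ (by positivity) ?_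
    · intro f
      simp only [hsq]
      rw [one_div, inv_mul_eq_div]
      exact hop f
    · field_simp
  · exact fun x => ylift_singleton x
  · rintro S ⟨u, hu, v, hv, h1, h2⟩
    exact ylift_zero ⟨u, hu, v, hv, h1, by rw [h2, Real.sqrt_zero]⟩
  · exact fun S => ylift_nonneg (by positivity) (fun _ _ => Real.sqrt_nonneg _) S

/-- **Lemma L** in the form of the skeleton -/
theorem lift {p Gam : ℝ} (hp : 0 < p) (hp1 : p ≤ 1) (hG : 1 ≤ Gam) (hG2 : Gam ≤ 2)
    {g : V → V → ℝ} (hs : ∀ u v, g u v = g v u) (h0 : ∀ u, g u u = 0) (hg0 : ∀ u v, 0 ≤ g u v)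
    (hgG : ∀ u v, g u v ≤ Gam)
    (hop : ∀ f : V → ℝ, |∑ u, ∑ v, f u * f v * (g u v - 1)| ≤ (∑ u, f u ^ 2) / p)
    {k : ℕ} (hk : 1 ≤ k) :
    ∃ y : Finset V → ℝ, IsPseudo k y ∧ (∀ x, y {x} = p / (40 * k * Gam ^ k)) ∧
      (∀ S : Finset V, (∃ u ∈ S, ∃ v ∈ S, u ≠ v ∧ g u v = 0) → y S = 0) := by
  obtain ⟨y, h1, h2, h3, -⟩ := lift_two hp hp1 hG hG2 hs h0 hg0 hgG hop hk
  exact ⟨y, ⟨h1.empty, fun T N hTN hc f => h1.psd T N hTN (by omega) f⟩, h2, h3⟩

end Pool.Agent.Lib.MP_0430e4_lc.Hier
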